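import Mathlib

set_option autoImplicit false
set_option maxHeartbeats 400000

/-!
Three shifts: lines `n + h_i = (T ^ 2 + w_i ^ 2) / s`, with `s = 2 s₁` and all prime factors of
`s₁` congruent to 1 modulo 4.
-/

namespace Pool.Agent.Lib.MP_0ea763_nt_Five

/-- positive, congruent to 1 modulo 4 and all prime factors congruent to 1 modulo 4 -/
def Good (n : ℤ) : Prop :=
  0 < n ∧ n % 4 = 1 ∧ ∀ q : ℕ, q.Prime → (q : ℤ) ∣ n → q % 4 = 1

lemma Good.mul {m n : ℤ} (hm : Good m) (hn : Good n) : Good (m * n) := by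
  obtain ⟨m1, m2, m3⟩ := hm
  obtain ⟨n1, n2, n3⟩ := hn
  refine ⟨mul_pos m1 n1, ?_, ?_⟩
  · rw [Int.mul_emod, m2, n2]; norm_num
  · intro q hq hd
    rcases (Nat.prime_iff_prime_int.mp hq).dvd_or_dvd hd with h | h
    · exact m3 q hq h
    · exact n3 q hq h

/-- a sum of two coprime squares which is odd is good -/
lemma good_of_coprime {x y : ℤ} (hc : IsCoprime x y) (hxy : (x + y) % 2 = 1) :
    Good (x ^ 2 + y ^ 2) := by
  have h0 : 0 ≤ x ^ 2 + y ^ 2 := by positivity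
  have ho4 : (x ^ 2 + y ^ 2) % 4 = 1 := by
    rcases Int.even_or_odd' x with ⟨k, hk | hk⟩
    · obtain ⟨j, hj⟩ : ∃ j, y = 2 * j + 1 := ⟨y / 2, by omega⟩
      have : x ^ 2 + y ^ 2 = 4 * (k ^ 2 + j ^ 2 + j) + 1 := by rw [hk, hj]; ring
      omega
    · obtain ⟨j, hj⟩ : ∃ j, y = 2 * j := ⟨y / 2, by omega⟩
      have : x ^ 2 + y ^ 2 = 4 * (k ^ 2 + j ^ 2 + k) + 1 := by rw [hk, hj]; ring
      omega
  have ho : (x ^ 2 + y ^ 2) % 2 = 1 := by omega
  refine ⟨by omega, ho4, ?_⟩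
  intro q hq hd
  have hs := ZMod.isSquare_neg_one_of_eq_sq_add_sq_of_isCoprime (n := x ^ 2 + y ^ 2) rfl hc
  have hmem : q ∈ (x ^ 2 + y ^ 2).natAbs.primeFactors := by
    rw [Nat.mem_primeFactors]
    exact ⟨hq, Int.natCast_dvd.mp hd, by omega⟩
  have h3 := Nat.mod_four_ne_three_of_mem_primeFactors_of_isSquare_neg_one hmem hs
  have h2 : q ≠ 2 := by
    rintro rfl
    have : ((2 : ℕ) : ℤ) = 2 := rfl
    rw [this] at hd
    omega
  rcases hq.eq_two_or_odd with h | h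
  · exact absurd h h2
  · omega

lemma isCoprime_of_no_prime {x y : ℤ} (h : ∀ p : ℕ, p.Prime → (p : ℤ) ∣ x → (p : ℤ) ∣ y → False) :
    IsCoprime x y := by
  rw [Int.isCoprime_iff_gcd_eq_one]
  by_contra hne
  obtain ⟨p, hp, hd⟩ := Nat.exists_prime_and_dvd hne
  have h1 : (p : ℤ) ∣ x := (Int.natCast_dvd_natCast.mpr hd).trans (Int.gcd_dvd_left ..)
  have h2 : (p : ℤ) ∣ y := (Int.natCast_dvd_natCast.mpr hd).trans (Int.gcd_dvd_right ..)
  exact h p hp h1 h2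

/-- choice of an integer by the Chinese remainder theorem -/
lemma crt_choice (R2 : ℤ) (hR20 : R2 ≠ 0) (hR2even : R2 % 2 = 0) (C : ℕ → Prop) (π B t : ℤ)
    (hπ : π = 0 ∨ π = 1) (ht : t = 0 ∨ t = 1) (hB0 : 0 ≤ B) :
    ∃ M : ℤ, B ≤ M ∧ M % 2 = π ∧
      (∀ p : ℕ, p.Prime → p ≠ 2 → (p : ℤ) ∣ R2 →
        (C p → (p : ℤ) ∣ M - 2) ∧ (¬ C p → (p : ℤ) ∣ M - 1)) ∧
      (π = 0 → R2 % 4 = 2 → M % 4 = 2 * t) := by
  classical
  obtain ⟨P, hP⟩ : ∃ P : Finset ℕ, P = R2.natAbs.primeFactors := ⟨_, rfl⟩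
  have hmemP : ∀ p : ℕ, p.Prime → (p : ℤ) ∣ R2 → p ∈ P := by
    intro p hp hd
    rw [hP, Nat.mem_primeFactors]
    exact ⟨hp, Int.natCast_dvd.mp hd, Int.natAbs_ne_zero.mpr hR20⟩
  have hPp : ∀ p ∈ P, p.Prime := fun p hp => Nat.prime_of_mem_primeFactors (hP ▸ hp)
  obtain ⟨r, hr⟩ : ∃ r : ℕ → ℕ, r = fun p => if p = 2 then π.toNat else if C p then 2 else 1 :=
    ⟨_, rfl⟩
  have hcop : Set.Pairwise (P : Set ℕ) (Function.onFun Nat.Coprime (id : ℕ → ℕ)) := by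
    intro p hp q hq hne
    exact (Nat.coprime_primes (hPp p hp) (hPp q hq)).mpr hne
  obtain ⟨m, hm⟩ := Nat.chineseRemainderOfFinset r id P (fun p hp => (hPp p hp).ne_zero) hcop
  have hmr : ∀ p ∈ P, (p : ℤ) ∣ (m : ℤ) - r p := by
    intro p hp
    have := hm p hp
    exact (Nat.modEq_iff_dvd.mp this.symm)
  have hm2 : (m : ℤ) % 2 = π := by
    have h2 := hmr 2 (hmemP 2 Nat.prime_two (by push_cast; omega))
    have hr2 : (r 2 : ℤ) = π := by
      rw [hr]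
      show (((if (2 : ℕ) = 2 then π.toNat else _ : ℕ)) : ℤ) = _
      rw [if_pos rfl]
      exact Int.toNat_of_nonneg (by omega)
    rw [hr2] at h2
    push_cast at h2
    omega
  obtain ⟨z0, hz0⟩ : ∃ z0 : ℤ, z0 = (t + (m : ℤ) / 2) % 2 := ⟨_, rfl⟩
  have hz01 : z0 = 0 ∨ z0 = 1 := by omega
  obtain ⟨W, hW⟩ : ∃ W : ℤ, W = B + |R2| := ⟨_, rfl⟩
  have hWB : B + |R2| ≤ R2 ^ 2 * W := by
    have h1 : 1 ≤ R2 ^ 2 := by
      have := sq_pos_of_pos (abs_pos.mpr hR20)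
      rw [sq_abs] at this
      omega
    have := abs_nonneg R2
    rw [hW]
    nlinarith
  have h2 : -|R2| ≤ R2 * z0 := by
    rcases hz01 with h | h
    · rw [h, mul_zero]; have := abs_nonneg R2; omega
    · rw [h, mul_one]; exact neg_abs_le R2
  refine ⟨m + R2 * (z0 + R2 * W), ?_, ?_, ?_, ?_⟩
  · have h4 : (0 : ℤ) ≤ (m : ℤ) := Int.natCast_nonneg m
    have e : (m : ℤ) + R2 * (z0 + R2 * W) = m + R2 * z0 + R2 ^ 2 * W := by ring
    rw [e]; linarith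
  · obtain ⟨x, hx⟩ : ∃ x, R2 = 2 * x := ⟨R2 / 2, by omega⟩
    have e : (m : ℤ) + R2 * (z0 + R2 * W) = m + 2 * (x * (z0 + R2 * W)) := by
      nth_rewrite 1 [hx]; ring
    rw [e]
    generalize x * (z0 + R2 * W) = y
    omega
  · intro p hp hp2 hd
    have h5 := hmr p (hmemP p hp hd)
    have h6 : (p : ℤ) ∣ R2 * (z0 + R2 * W) := hd.mul_right _
    constructor
    · intro hc
      have hrp : r p = 2 := by rw [hr]; simp only; rw [if_neg hp2, if_pos hc]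
      rw [hrp] at h5
      have := h5.add h6
      push_cast at this
      have e : (m : ℤ) + R2 * (z0 + R2 * W) - 2 = (m : ℤ) - 2 + R2 * (z0 + R2 * W) := by ring
      rw [e]; exact this
    · intro hc
      have hrp : r p = 1 := by rw [hr]; simp only; rw [if_neg hp2, if_neg hc]
      rw [hrp] at h5
      have := h5.add h6
      push_cast at this
      have e : (m : ℤ) + R2 * (z0 + R2 * W) - 1 = (m : ℤ) - 1 + R2 * (z0 + R2 * W) := by ring
      rw [e]; exact this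
  · intro hπ0 hr4
    obtain ⟨ρ, hρ⟩ : ∃ ρ, R2 = 4 * ρ + 2 := ⟨R2 / 4, by omega⟩
    obtain ⟨m', hm'⟩ : ∃ m', (m : ℤ) = 2 * m' := ⟨(m : ℤ) / 2, by omega⟩
    have hz0' : z0 = (t + m') % 2 := by rw [hz0, hm']; omega
    obtain ⟨v, hv⟩ : ∃ v, z0 = t + m' + 2 * v := ⟨-((t + m') / 2), by omega⟩
    have e : (m : ℤ) + R2 * (z0 + R2 * W) =
        4 * (m' + v + ρ * z0 + (2 * ρ + 1) ^ 2 * W) + 2 * t := by
      have h5 : R2 * (z0 + R2 * W) = R2 * z0 + R2 ^ 2 * W := by ring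
      have h6 : R2 * z0 = (4 * ρ + 2) * z0 := by rw [hρ]
      have h7 : R2 ^ 2 * W = (4 * ρ + 2) ^ 2 * W := by rw [hρ]
      rw [h5, h6, h7, hm']
      linear_combination 2 * hv
    rw [e]
    generalize m' + v + ρ * z0 + (2 * ρ + 1) ^ 2 * W = y
    omega

lemma ndvd_two {p : ℕ} (hp : p.Prime) (h2 : p ≠ 2) : ¬ (p : ℤ) ∣ 2 := by
  intro hd
  have : p ∣ 2 := by exact_mod_cast hd
  exact h2 ((Nat.prime_dvd_prime_iff_eq hp Nat.prime_two).mp this)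

lemma eq_three {p : ℕ} (hp : p.Prime) (hd : (p : ℤ) ∣ 3) : p = 3 := by
  have : p ∣ 3 := by exact_mod_cast hd
  exact (Nat.prime_dvd_prime_iff_eq hp Nat.prime_three).mp this

lemma ndvd_one {p : ℕ} (hp : p.Prime) : ¬ (p : ℤ) ∣ 1 := by
  intro hd
  have : p ∣ 1 := by exact_mod_cast hd
  exact hp.one_lt.ne' (Nat.dvd_one.mp this)

/-- the coprimality statements -/
lemma coprime_all (a b u e M T : ℤ) (hac : a = 4 * (u + 1)) (he : e = u ^ 2 + b + 1)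
    (nc : a % 3 = 0 ∨ b % 3 = 0 ∨ (a - b) % 3 = 0)
    (hT : 2 * T = M ^ 2 - u ^ 2 - b + 1) (hTu : (T + u) % 2 = 1) (hpar : M % 2 = (u + 1) % 2)
    (hM : ∀ p : ℕ, p.Prime → p ≠ 2 → (p : ℤ) ∣ u * (u + 2) * e →
      ((((p : ℤ) ∣ u ∧ (p : ℤ) ∣ b - 2) ∨ ((p : ℤ) ∣ u + 2 ∧ (p : ℤ) ∣ b - a - 2)) →
        (p : ℤ) ∣ M - 2) ∧
      (¬ (((p : ℤ) ∣ u ∧ (p : ℤ) ∣ b - 2) ∨ ((p : ℤ) ∣ u + 2 ∧ (p : ℤ) ∣ b - a - 2)) →
        (p : ℤ) ∣ M - 1)) :
    IsCoprime T u ∧ IsCoprime T (u + 2) ∧ IsCoprime (T - 1) M := by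
  refine ⟨?_, ?_, ?_⟩
  · apply isCoprime_of_no_prime
    intro p hp h1 h2
    by_cases hp2 : p = 2
    · subst hp2; push_cast at h1 h2; clear hM; omega
    have hpP := hM p hp hp2 ((h2.mul_right _).mul_right _)
    have hM2 : (p : ℤ) ∣ M ^ 2 - (b - 1) := by
      have : M ^ 2 - (b - 1) = 2 * T + u * u := by linear_combination -hT
      rw [this]; exact (h1.mul_left 2).add (h2.mul_left u)
    by_cases hcase : (p : ℤ) ∣ b - 2
    · have h3 := hpP.1 (Or.inl ⟨h2, hcase⟩)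
      have h4 : (p : ℤ) ∣ 3 := by
        have e1 : (3 : ℤ) = (M ^ 2 - (b - 1)) + (b - 2) - (M - 2) * (M + 2) := by ring
        rw [e1]; exact (hM2.add hcase).sub (h3.mul_right _)
      have h5 := eq_three hp h4
      subst h5
      push_cast at h2 hcase
      clear hM hpP h1 h3 hM2 h4 hT he hTu hpar
      omega
    · have h3 := hpP.2 (by
        rintro (⟨-, h⟩ | ⟨h, -⟩)
        · exact hcase h
        · exact ndvd_two hp hp2 (by have := h.sub h2; simpa using this))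
      apply hcase
      have e1 : b - 2 = (M - 1) * (M + 1) - (M ^ 2 - (b - 1)) := by ring
      rw [e1]; exact (h3.mul_right _).sub hM2
  · apply isCoprime_of_no_prime
    intro p hp h1 h2
    by_cases hp2 : p = 2
    · subst hp2; push_cast at h1 h2; clear hM; omega
    have hpP := hM p hp hp2 ((h2.mul_left _).mul_right _)
    have hM2 : (p : ℤ) ∣ M ^ 2 - (b - a - 1) := by
      have : M ^ 2 - (b - a - 1) = 2 * T + (u + 2) * (u + 2) := by
        rw [hac]; linear_combination -hT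
      rw [this]; exact (h1.mul_left 2).add (h2.mul_left _)
    by_cases hcase : (p : ℤ) ∣ b - a - 2
    · have h3 := hpP.1 (Or.inr ⟨h2, hcase⟩)
      have h4 : (p : ℤ) ∣ 3 := by
        have e1 : (3 : ℤ) = (M ^ 2 - (b - a - 1)) + (b - a - 2) - (M - 2) * (M + 2) := by ring
        rw [e1]; exact (hM2.add hcase).sub (h3.mul_right _)
      have h5 := eq_three hp h4
      subst h5
      push_cast at h2 hcase
      clear hM hpP h1 h3 hM2 h4 hT he hTu hpar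
      omega
    · have h3 := hpP.2 (by
        rintro (⟨h, -⟩ | ⟨-, h⟩)
        · exact ndvd_two hp hp2 (by have := h2.sub h; simpa using this)
        · exact hcase h)
      apply hcase
      have e1 : b - a - 2 = (M - 1) * (M + 1) - (M ^ 2 - (b - a - 1)) := by ring
      rw [e1]; exact (h3.mul_right _).sub hM2
  · apply isCoprime_of_no_prime
    intro p hp h1 h2
    by_cases hp2 : p = 2
    · subst hp2; push_cast at h1 h2; clear hM; omega
    have hpe : (p : ℤ) ∣ e := by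
      have : e = M * M - 2 * (T - 1) := by rw [he]; linear_combination hT
      rw [this]; exact (h2.mul_left M).sub (h1.mul_left 2)
    have hpP := hM p hp hp2 (hpe.mul_left _)
    by_cases hcase : (((p : ℤ) ∣ u ∧ (p : ℤ) ∣ b - 2) ∨ ((p : ℤ) ∣ u + 2 ∧ (p : ℤ) ∣ b - a - 2))
    · have h3 := hpP.1 hcase
      exact ndvd_two hp hp2 (by have := h2.sub h3; simpa using this)
    · have h3 := hpP.2 hcase
      exact ndvd_one hp (by have := h2.sub h3; simpa using this)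

/-- The main existence lemma: `N`, `N + a`, `N + b` all good, `N` large and, if `8 ∣ a, b`, in a
prescribed class modulo 8. -/
lemma exists_N_aux (a b L t : ℤ) (ha : a % 4 = 0) (hb : b % 4 = 0) (ha1 : a ≠ 4) (ha2 : a ≠ -4)
    (nc : a % 3 = 0 ∨ b % 3 = 0 ∨ (a - b) % 3 = 0) (ht : t = 0 ∨ t = 1) :
    ∃ N : ℤ, L < N ∧ Good N ∧ Good (N + a) ∧ Good (N + b) ∧
      (a % 8 = 0 → b % 8 = 0 → N % 8 = 1 + 4 * t) := by
  obtain ⟨u, hac⟩ : ∃ u, a = 4 * (u + 1) := ⟨a / 4 - 1, by omega⟩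
  obtain ⟨d, hd⟩ : ∃ d, b = 4 * d := ⟨b / 4, by omega⟩
  have hu0 : u ≠ 0 := by omega
  have hv0 : u + 2 ≠ 0 := by omega
  obtain ⟨e, he⟩ : ∃ e : ℤ, e = u ^ 2 + b + 1 := ⟨_, rfl⟩
  have he0 : e ≠ 0 := by
    have husq : u ^ 2 % 4 = 0 ∨ u ^ 2 % 4 = 1 := by
      rcases Int.even_or_odd' u with ⟨k, hk | hk⟩
      · left; rw [hk]; ring_nf; omega
      · right; rw [hk]; ring_nf; omega
    omega
  have hR20 : u * (u + 2) * e ≠ 0 := by positivity
  have hR2even : (u * (u + 2) * e) % 2 = 0 := by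
    rcases Int.even_or_odd' u with ⟨k, hk | hk⟩
    · have : u * (u + 2) * e = 2 * (k * (u + 2) * e) := by nth_rewrite 1 [hk]; ring
      rw [this]; exact Int.mul_emod_right _ _
    · have : u * (u + 2) * e = 2 * (u * (u + 2) * (2 * k ^ 2 + 2 * k + 2 * d + 1)) := by
        rw [he, hd]; nth_rewrite 3 [hk]; ring
      rw [this]; exact Int.mul_emod_right _ _
  have hR2eight : a % 8 = 0 → b % 8 = 0 → (u * (u + 2) * e) % 4 = 2 := by
    intro ha8 hb8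
    obtain ⟨k, hk⟩ : ∃ k, u = 2 * k + 1 := ⟨u / 2, by omega⟩
    obtain ⟨d', hd'⟩ : ∃ d', b = 8 * d' := ⟨b / 8, by omega⟩
    have : u * (u + 2) * e = 4 * ((2 * k ^ 2 + 4 * k + 1) * (2 * k ^ 2 + 2 * k + 1 + 4 * d') +
        (k ^ 2 + k + 2 * d')) + 2 := by
      rw [he, hd', hk]; ring
    rw [this]
    generalize (2 * k ^ 2 + 4 * k + 1) * (2 * k ^ 2 + 2 * k + 1 + 4 * d') +
        (k ^ 2 + k + 2 * d') = y
    omega
  obtain ⟨B, hB⟩ : ∃ B : ℤ, B = 2 * |L| + u ^ 2 + |b| + 2 := ⟨_, rfl⟩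
  have hB0 : 0 ≤ B := by rw [hB]; positivity
  obtain ⟨M, hBM, hpar, hMp, hM4⟩ := crt_choice (u * (u + 2) * e) hR20 hR2even
    (fun p => ((p : ℤ) ∣ u ∧ (p : ℤ) ∣ b - 2) ∨ ((p : ℤ) ∣ u + 2 ∧ (p : ℤ) ∣ b - a - 2))
    ((u + 1) % 2) B t (by omega) ht hB0
  obtain ⟨T, hT, hTu⟩ : ∃ T : ℤ, 2 * T = M ^ 2 - u ^ 2 - b + 1 ∧ (T + u) % 2 = 1 := by
    clear hM4 hMp hR2eight hR2even hBM
    rcases Int.even_or_odd' u with ⟨k, hk | hk⟩
    · obtain ⟨j, hj⟩ : ∃ j, M = 2 * j + 1 := ⟨M / 2, by omega⟩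
      refine ⟨2 * (j ^ 2 + j - k ^ 2 - d) + 1, by rw [hj, hk, hd]; ring, ?_⟩
      rw [hk]
      generalize j ^ 2 + j - k ^ 2 - d = y
      clear hk hj; omega
    · obtain ⟨j, hj⟩ : ∃ j, M = 2 * j := ⟨M / 2, by omega⟩
      refine ⟨2 * (j ^ 2 - k ^ 2 - k - d), by rw [hj, hk, hd]; ring, ?_⟩
      rw [hk]
      generalize j ^ 2 - k ^ 2 - k - d = y
      clear hk hj; omega
  obtain ⟨c1, c2, c3⟩ := coprime_all a b u e M T hac he nc hT hTu hpar hMp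
  have hLT : |L| < T := by
    rw [hB] at hBM
    have h1 : 0 ≤ |L| := abs_nonneg L
    have h2 : 0 ≤ |b| := abs_nonneg b
    have h3 : b ≤ |b| := le_abs_self b
    have h4 : 0 ≤ u ^ 2 := sq_nonneg u
    have h5 : M ≤ M ^ 2 := by nlinarith
    have h6 : 2 * |L| + 2 ≤ 2 * T := by linarith
    linarith
  refine ⟨T ^ 2 + u ^ 2, ?_, good_of_coprime c1 hTu, ?_, ?_, ?_⟩
  · have h1 := le_abs_self L
    have h2 : 0 ≤ |L| := abs_nonneg L
    have h4 : 0 ≤ u ^ 2 := sq_nonneg u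
    nlinarith
  · have e1 : T ^ 2 + u ^ 2 + a = T ^ 2 + (u + 2) ^ 2 := by rw [hac]; ring
    rw [e1]
    refine good_of_coprime c2 ?_
    clear hM4 hMp hR2eight hR2even hBM; omega
  · have e1 : T ^ 2 + u ^ 2 + b = (T - 1) ^ 2 + M ^ 2 := by linear_combination hT
    rw [e1]
    refine good_of_coprime c3 ?_
    clear hM4 hMp hR2eight hR2even hBM; omega
  · intro ha8 hb8
    have hM4 := hM4 (by clear hM4 hMp hR2eight hR2even hBM; omega) (hR2eight ha8 hb8)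
    clear hMp hR2eight hR2even hBM
    obtain ⟨k, hk⟩ : ∃ k, u = 2 * k + 1 := ⟨u / 2, by omega⟩
    obtain ⟨d', hd'⟩ : ∃ d', b = 8 * d' := ⟨b / 8, by omega⟩
    obtain ⟨v, hv⟩ : ∃ v, M = 4 * v + 2 * t := ⟨M / 4, by omega⟩
    obtain ⟨k2, hk2⟩ : ∃ k2, k * (k + 1) = 2 * k2 := by
      obtain ⟨x, hx⟩ := Int.even_mul_succ_self k
      exact ⟨x, by rw [hx]; ring⟩
    -- T = 2 t ^ 2 mod 4
    have hT4 : T = 4 * (2 * v ^ 2 + 2 * v * t - k2 - d') + 2 * t ^ 2 := by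
      have h1 : 2 * T = 2 * (4 * (2 * v ^ 2 + 2 * v * t - k2 - d') + 2 * t ^ 2) := by
        rw [hT, hv, hk, hd']
        linear_combination -4 * hk2
      linarith
    obtain ⟨y, hy⟩ : ∃ y, y = 2 * v ^ 2 + 2 * v * t - k2 - d' := ⟨_, rfl⟩
    rw [← hy] at hT4
    rcases ht with h | h
    · have : T ^ 2 + u ^ 2 = 8 * (2 * y ^ 2 + k2) + 1 := by
        rw [hT4, hk, h]; linear_combination 4 * hk2
      rw [this, h]
      generalize 2 * y ^ 2 + k2 = x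
      clear hT4 hy hk2 hv hd' hk this; omega
    · have : T ^ 2 + u ^ 2 = 8 * (2 * y ^ 2 + 2 * y + k2) + 5 := by
        rw [hT4, hk, h]; linear_combination 4 * hk2
      rw [this, h]
      generalize 2 * y ^ 2 + 2 * y + k2 = x
      clear hT4 hy hk2 hv hd' hk this; omega

lemma exists_N (a b L t : ℤ) (ha : a % 4 = 0) (hb : b % 4 = 0) (hab : a ≠ b) (ha0 : a ≠ 0)
    (nc : a % 3 = 0 ∨ b % 3 = 0 ∨ (a - b) % 3 = 0) (ht : t = 0 ∨ t = 1) :
    ∃ N : ℤ, L < N ∧ Good N ∧ Good (N + a) ∧ Good (N + b) ∧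
      (a % 8 = 0 → b % 8 = 0 → N % 8 = 1 + 4 * t) := by
  by_cases h1 : a ≠ 4 ∧ a ≠ -4
  · exact exists_N_aux a b L t ha hb h1.1 h1.2 nc ht
  by_cases h2 : b ≠ 4 ∧ b ≠ -4
  · obtain ⟨N, n0, n1, n2, n3, -⟩ := exists_N_aux b a L t hb ha h2.1 h2.2 (by omega) ht
    exact ⟨N, n0, n1, n3, n2, fun h => by omega⟩
  have hb' : b = -a := by omega
  obtain ⟨N, n0, n1, n2, n3, -⟩ := exists_N_aux (b - a) (-a) (L + |a|) t (by omega) (by omega)
    (by omega) (by omega) (by omega) ht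
  refine ⟨N + -a, ?_, n3, by simpa using n1, ?_, fun h => by omega⟩
  · have := le_abs_self a; omega
  · have : N + -a + b = N + (b - a) := by ring
    rw [this]; exact n2

/-! ### square roots of `-w²` modulo a good number -/

/-- one Newton step: a square root of `-1` modulo an odd `m` lifts to one modulo `m ^ 2` -/
lemma newton {m i : ℤ} (hm : m % 2 = 1) (h : m ∣ i ^ 2 + 1) : ∃ j : ℤ, m ^ 2 ∣ j ^ 2 + 1 := by
  obtain ⟨k, hk⟩ := h
  -- `g` is an inverse of `2` modulo `m ^ 2`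
  obtain ⟨g, f, hg⟩ : ∃ g f : ℤ, 2 * g = 1 + m ^ 2 * f := by
    obtain ⟨t, ht⟩ : ∃ t, m = 2 * t + 1 := ⟨m / 2, by omega⟩
    refine ⟨2 * t ^ 2 + 2 * t + 1, 1, by rw [ht]; ring⟩
  refine ⟨i * (3 + i ^ 2) * g, ?_⟩
  refine ⟨k ^ 2 * (i ^ 2 + 4) * g ^ 2 - f * (2 * g + 1), ?_⟩
  have e1 : (i ^ 2 + 1) ^ 2 * (i ^ 2 + 4) = i ^ 2 * (3 + i ^ 2) ^ 2 + 4 := by ring
  have e2 : (i * (3 + i ^ 2) * g) ^ 2 + 1 =
      (i ^ 2 + 1) ^ 2 * (i ^ 2 + 4) * g ^ 2 - (2 * g - 1) * (2 * g + 1) := by ring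
  rw [e2, hk, hg]; ring

lemma sqrt_pow {p : ℕ} (hp : p.Prime) (h1 : p % 4 = 1) (k : ℕ) :
    ∃ i : ℤ, ((p : ℤ) ^ k) ∣ i ^ 2 + 1 := by
  have hodd : (p : ℤ) % 2 = 1 := by omega
  have hstep : ∀ n : ℕ, ∃ i : ℤ, ((p : ℤ) ^ (2 ^ n)) ∣ i ^ 2 + 1 := by
    intro n
    induction n with
    | zero =>
      have : Fact p.Prime := ⟨hp⟩
      obtain ⟨y, hy⟩ := (ZMod.exists_sq_eq_neg_one_iff (p := p)).mpr (by omega)
      refine ⟨(y.val : ℤ), ?_⟩
      rw [pow_zero, pow_one, ← ZMod.intCast_zmod_eq_zero_iff_dvd]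
      push_cast
      rw [ZMod.natCast_zmod_val, sq, ← hy]; ring
    | succ n ih =>
      obtain ⟨i, hi⟩ := ih
      obtain ⟨j, hj⟩ := newton (m := (p : ℤ) ^ (2 ^ n)) (by
        have : Odd ((p : ℤ) ^ (2 ^ n)) := (Int.odd_iff.mpr hodd).pow
        exact Int.odd_iff.mp this) hi
      refine ⟨j, ?_⟩
      rw [pow_succ, pow_mul]
      exact hj
  obtain ⟨i, hi⟩ := hstep k
  exact ⟨i, (pow_dvd_pow _ (Nat.lt_two_pow_self).le).trans hi⟩

lemma tau_exists (w α β : ℤ) (hβ : β = 1 ∨ β = 2) (n : ℕ) : n % 2 = 1 →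
    (∀ q : ℕ, q.Prime → q ∣ n → q % 4 = 1) →
    ∃ τ : ℤ, (n : ℤ) ∣ τ ^ 2 + w ^ 2 ∧ IsCoprime (α * τ - β) (n : ℤ) := by
  induction n using Nat.recOnPosPrimePosCoprime with
  | zero => intro h; omega
  | one => intro _ _; exact ⟨0, by simp, by simpa using isCoprime_one_right⟩
  | prime_pow p k hp hk =>
    intro _ hq
    have h1 := hq p hp (dvd_pow_self p hk.ne')
    obtain ⟨i, hi⟩ := sqrt_pow hp h1 k
    have hcop : ∀ x : ℤ, ¬ (p : ℤ) ∣ x → IsCoprime x ((p ^ k : ℕ) : ℤ) := by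
      intro x hx
      push_cast
      apply IsCoprime.pow_right
      exact ((Nat.prime_iff_prime_int.mp hp).coprime_iff_not_dvd.mpr hx).symm
    by_cases h : (p : ℤ) ∣ α * (i * w) - β
    · refine ⟨-(i * w), ?_, hcop _ ?_⟩
      · have : (-(i * w)) ^ 2 + w ^ 2 = (i ^ 2 + 1) * w ^ 2 := by ring
        rw [this]; push_cast; exact hi.mul_right _
      · intro h2
        have h3 : (p : ℤ) ∣ 4 := by
          have h5 : (p : ℤ) ∣ 2 * β := by
            have : 2 * β = -((α * (i * w) - β) + (α * -(i * w) - β)) := by ring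
            rw [this]; exact (h.add h2).neg_right
          refine h5.trans ?_
          rcases hβ with rfl | rfl
          · exact ⟨2, by norm_num⟩
          · exact ⟨1, by norm_num⟩
        have h4 : p ∣ 2 ^ 2 := by exact_mod_cast h3
        have h5 := (Nat.prime_dvd_prime_iff_eq hp Nat.prime_two).mp (hp.dvd_of_dvd_pow h4)
        omega
    · refine ⟨i * w, ?_, hcop _ h⟩
      have : (i * w) ^ 2 + w ^ 2 = (i ^ 2 + 1) * w ^ 2 := by ring
      rw [this]; push_cast; exact hi.mul_right _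
  | coprime a b ha hb hab iha ihb =>
    intro hodd hq
    obtain ⟨ta, ha1, ha2⟩ := iha (by
      by_contra h; have : a % 2 = 0 := by omega
      rw [Nat.mul_mod, this] at hodd; simp at hodd) (fun q hp hd => hq q hp (hd.mul_right b))
    obtain ⟨tb, hb1, hb2⟩ := ihb (by
      by_contra h; have : b % 2 = 0 := by omega
      rw [Nat.mul_mod, this] at hodd; simp at hodd) (fun q hp hd => hq q hp (hd.mul_left a))
    have hab' : IsCoprime (a : ℤ) (b : ℤ) := Nat.isCoprime_iff_coprime.mpr hab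
    obtain ⟨x, y, hxy⟩ := id hab'
    obtain ⟨τ, hτ⟩ : ∃ τ : ℤ, τ = tb * (x * a) + ta * (y * b) := ⟨_, rfl⟩
    have t1 : (a : ℤ) ∣ τ - ta := by
      refine ⟨x * (tb - ta), ?_⟩
      rw [hτ]; linear_combination ta * hxy
    have t2 : (b : ℤ) ∣ τ - tb := by
      refine ⟨y * (ta - tb), ?_⟩
      rw [hτ]; linear_combination tb * hxy
    refine ⟨τ, ?_, ?_⟩
    · push_cast
      apply hab'.mul_dvd
      · have : τ ^ 2 + w ^ 2 = (τ - ta) * (τ + ta) + (ta ^ 2 + w ^ 2) := by ring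
        rw [this]; exact (t1.mul_right _).add ha1
      · have : τ ^ 2 + w ^ 2 = (τ - tb) * (τ + tb) + (tb ^ 2 + w ^ 2) := by ring
        rw [this]; exact (t2.mul_right _).add hb1
    · push_cast
      apply IsCoprime.mul_right
      · obtain ⟨z, hz⟩ := t1
        have : α * τ - β = (α * ta - β) + (α * z) * a := by linear_combination α * hz
        rw [this]; exact (IsCoprime.add_mul_right_left_iff).mpr ha2
      · obtain ⟨z, hz⟩ := t2
        have : α * τ - β = (α * tb - β) + (α * z) * b := by linear_combination α * hz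
        rw [this]; exact (IsCoprime.add_mul_right_left_iff).mpr hb2

/-- A line for the three shifts `0, k2, k3`: `n + k_i = (T ^ 2 + w_i ^ 2) / (2 s)`. -/
structure LineData (k2 k3 s w1 w2 w3 c τ i : ℤ) : Prop where
  good : Good s
  odd : w1 % 2 = 1
  e1 : w1 ^ 2 = c
  e2 : w2 ^ 2 = 2 * s * k2 + c
  e3 : w3 ^ 2 = 2 * s * k3 + c
  hτ : s ∣ τ ^ 2 + c
  hi : s ∣ i ^ 2 + 1

theorem hasLine (k2 k3 : ℤ) (h2 : k2 ≠ 0) (h3 : k3 ≠ 0) (h23 : k2 ≠ k3)
    (m2 : k2 % 8 = 0) (m3 : k3 % 8 = 0)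
    (nc : k2 % 3 = 0 ∨ k3 % 3 = 0 ∨ (k2 - k3) % 3 = 0) (α β : ℤ) (hβ : β = 1 ∨ β = 2)
    (L t : ℤ) (ht : t = 0 ∨ t = 1) :
    ∃ s w1 w2 w3 c τ i : ℤ, LineData k2 k3 s w1 w2 w3 c τ i ∧ IsCoprime (α * τ - β) s ∧
      L * s < c ∧ (k2 % 16 = 0 → k3 % 16 = 0 → s % 8 = 1 + 4 * t) := by
  obtain ⟨a, ha⟩ : ∃ a, k2 = 2 * a := ⟨k2 / 2, by omega⟩
  obtain ⟨b, hb⟩ : ∃ b, k3 = 2 * b := ⟨k3 / 2, by omega⟩
  obtain ⟨N, hN, g1, g2, g3, hN8⟩ := exists_N a b (2 * |a| + 2 * |b| + 32 * |L|) t (by omega)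
    (by omega) (by omega) (by omega) (by omega) ht
  have hs := (g1.mul g2).mul g3
  obtain ⟨s, hse⟩ : ∃ s, s = N * (N + a) * (N + b) := ⟨_, rfl⟩
  rw [← hse] at hs
  obtain ⟨n, hn⟩ : ∃ n : ℕ, (n : ℤ) = s := ⟨s.toNat, Int.toNat_of_nonneg hs.1.le⟩
  have hn2 : n % 2 = 1 := by have := hs.2.1; omega
  have hnq : ∀ q : ℕ, q.Prime → q ∣ n → q % 4 = 1 := by
    intro q hq hd
    exact hs.2.2 q hq (by rw [← hn]; exact_mod_cast hd)
  obtain ⟨i, hi, -⟩ := tau_exists 1 1 1 (Or.inl rfl) n hn2 hnq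
  obtain ⟨τ, hτ, hτc⟩ := tau_exists (N ^ 2 - a * b) α β hβ n hn2 hnq
  rw [hn] at hi hτ hτc
  obtain ⟨N0, N2, -⟩ := g1
  refine ⟨s, N ^ 2 - a * b, N * (N + a) - N * (N + b) + (N + a) * (N + b),
    -(N * (N + a)) + N * (N + b) + (N + a) * (N + b), (N ^ 2 - a * b) ^ 2, τ, i,
    ⟨hs, ?_, rfl, ?_, ?_, hτ, by simpa using hi⟩, hτc, ?_, ?_⟩
  · obtain ⟨k, hk⟩ : ∃ k, N = 2 * k + 1 := ⟨N / 2, by omega⟩
    obtain ⟨a', ha'⟩ : ∃ a', a = 2 * a' := ⟨a / 2, by omega⟩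
    have : N ^ 2 - a * b = 2 * (2 * k ^ 2 + 2 * k - a' * b) + 1 := by
      rw [hk, ha']; ring
    rw [this]; omega
  · rw [hse, ha]; ring
  · rw [hse, hb]; ring
  · have A0 := abs_nonneg a
    have B0 := abs_nonneg b
    have L0 := abs_nonneg L
    have hab : a * b ≤ |a| * |b| := by rw [← abs_mul]; exact le_abs_self _
    obtain ⟨A, hA⟩ : ∃ A, A = |a| := ⟨_, rfl⟩
    obtain ⟨B, hB⟩ : ∃ B, B = |b| := ⟨_, rfl⟩
    obtain ⟨l, hl⟩ : ∃ l, l = |L| := ⟨_, rfl⟩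
    have hale := le_abs_self a
    have hble := le_abs_self b
    have hLle := le_abs_self L
    rw [← hA, ← hB] at hab
    rw [← hA] at hale A0
    rw [← hB] at hble B0
    rw [← hl] at hLle L0
    rw [← hA, ← hB, ← hl] at hN
    have hs0 := hs.1
    -- s ≤ 4 N ^ 3
    have h1 : s ≤ 4 * N ^ 3 := by
      rw [hse]
      have e1 : N + a ≤ 2 * N := by linarith
      have e2 : N + b ≤ 2 * N := by linarith
      have p1 : 0 < N + a := g2.1
      have p2 : 0 < N + b := g3.1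
      calc N * (N + a) * (N + b) ≤ N * (2 * N) * (2 * N) := by gcongr
        _ = 4 * N ^ 3 := by ring
    -- N^2 - ab ≥ N^2 / 2
    have h2 : N ^ 2 ≤ 2 * (N ^ 2 - a * b) := by
      have : 2 * (A * B) ≤ N ^ 2 := by nlinarith [mul_nonneg A0 B0]
      linarith
    have h3 : N ^ 4 ≤ 4 * (N ^ 2 - a * b) ^ 2 := by
      have h0 : 0 ≤ N ^ 2 := sq_nonneg N
      calc N ^ 4 = N ^ 2 * N ^ 2 := by ring
        _ ≤ (2 * (N ^ 2 - a * b)) * (2 * (N ^ 2 - a * b)) := by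
            apply mul_le_mul h2 h2 h0 (by linarith)
        _ = _ := by ring
    have h4 : L * s ≤ l * (4 * N ^ 3) := by
      calc L * s ≤ l * s := by apply mul_le_mul_of_nonneg_right hLle hs0.le
        _ ≤ l * (4 * N ^ 3) := by apply mul_le_mul_of_nonneg_left h1 L0
    have h5 : 16 * (l * N ^ 3) < N ^ 4 := by
      have h6 : 0 < N ^ 3 := by positivity
      have h7 : 16 * l < N := by linarith
      calc 16 * (l * N ^ 3) = (16 * l) * N ^ 3 := by ring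
        _ < N * N ^ 3 := by apply mul_lt_mul_of_pos_right h7 h6
        _ = N ^ 4 := by ring
    linarith
  · intro h2' h3'
    have h8 := hN8 (by omega) (by omega)
    obtain ⟨v, hv⟩ : ∃ v, N = 8 * v + (1 + 4 * t) := ⟨N / 8, by omega⟩
    obtain ⟨a', ha'⟩ : ∃ a', a = 8 * a' := ⟨a / 8, by omega⟩
    obtain ⟨b', hb'⟩ : ∃ b', b = 8 * b' := ⟨b / 8, by omega⟩
    obtain ⟨x, hx⟩ : ∃ x, s = 8 * x + (1 + 4 * t) ^ 3 := by
      refine ⟨v * (N + a) * (N + b) + (1 + 4 * t) * (v + a') * (N + b) +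
        (1 + 4 * t) ^ 2 * (v + b'), ?_⟩
      have e1 : N + a = 8 * (v + a') + (1 + 4 * t) := by rw [hv, ha']; ring
      have e2 : N + b = 8 * (v + b') + (1 + 4 * t) := by rw [hv, hb']; ring
      rw [hse]
      linear_combination (N + a) * (N + b) * hv + (1 + 4 * t) * (N + b) * e1 +
        (1 + 4 * t) ^ 2 * e2
    rcases ht with h | h <;> subst h <;> norm_num at hx <;> omega

end Pool.Agent.Lib.MP_0ea763_nt_Five
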