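import Mathlib
import Pool.Agent.Lib.MP_0ea763_nt.FourCore
import Pool.Agent.Lib.MP_0ea763_nt_Five.Line

set_option autoImplicit false
set_option maxHeartbeats 4000000

/-!
Five shifts: from one prime divisor in a residue class to infinitely many `n`.
-/

namespace Pool.Agent.Lib.MP_0ea763_nt_Five

open Pool.Agent.Lib.MP_0ea763_nt (Sq2 pell_large infinite_of_large)

/-- infinitely many `n` with all five shifts sums of two squares -/
def Inf5 (h1 h2 h3 h4 h5 : ℤ) : Prop :=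
  Set.Infinite {n : ℤ | Sq2 (n + h1) ∧ Sq2 (n + h2) ∧ Sq2 (n + h3) ∧ Sq2 (n + h4) ∧ Sq2 (n + h5)}

lemma sq2_iff_nat (n : ℕ) : Sq2 (n : ℤ) ↔ ∃ x y : ℕ, n = x ^ 2 + y ^ 2 := by
  constructor
  · rintro ⟨x, y, h⟩
    refine ⟨x.natAbs, y.natAbs, ?_⟩
    zify
    rw [sq_abs, sq_abs]; exact h
  · rintro ⟨x, y, h⟩
    exact ⟨x, y, by rw [h]; push_cast; ring⟩

/-- division by `2 s` with `s` good -/
lemma sq2_of_mul {s m : ℤ} (hs : Good s) (h : Sq2 (2 * s * m)) : Sq2 m := by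
  obtain ⟨hs0, -, hsq⟩ := hs
  have h2 : Sq2 (2 * (s * m)) := by rw [← mul_assoc]; exact h
  have h3 : Sq2 (s * m) := h2.of_two_mul
  have hm0 : 0 ≤ m := by
    obtain ⟨x, y, hxy⟩ := h3
    by_contra hneg
    have : s * m < 0 := mul_neg_of_pos_of_neg hs0 (by omega)
    nlinarith [sq_nonneg x, sq_nonneg y]
  obtain ⟨a, ha⟩ : ∃ a : ℕ, (a : ℤ) = s := ⟨s.toNat, Int.toNat_of_nonneg hs0.le⟩
  obtain ⟨b, hb⟩ : ∃ b : ℕ, (b : ℤ) = m := ⟨m.toNat, Int.toNat_of_nonneg hm0⟩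
  rw [← ha, ← hb, ← Nat.cast_mul, sq2_iff_nat, Nat.eq_sq_add_sq_iff] at h3
  rw [← hb, sq2_iff_nat, Nat.eq_sq_add_sq_iff]
  intro q hq hq3
  have hqp : q.Prime := Nat.prime_of_mem_primeFactors hq
  have hb0 : b ≠ 0 := by
    rintro rfl; simp at hq
  have ha0 : a ≠ 0 := by
    rintro rfl; rw [← ha] at hs0; simp at hs0
  have hqa : ¬ q ∣ a := by
    intro hd
    have := hsq q hqp (by rw [← ha]; exact_mod_cast hd)
    omega
  have h4 := h3 q (by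
    rw [Nat.mem_primeFactors] at hq ⊢
    exact ⟨hq.1, hq.2.1.mul_left a, mul_ne_zero ha0 hb0⟩) hq3
  have : Fact q.Prime := ⟨hqp⟩
  rw [padicValNat.mul ha0 hb0, padicValNat.eq_zero_of_not_dvd hqa, zero_add] at h4
  exact h4

/-- The Pell step. -/
lemma pell_family (T0 lam mu B0 B0' C4 C5 q : ℤ) (hl : 0 < lam) (hm : 0 < mu) (hq : 0 < q)
    (hns : ¬ IsSquare (lam * mu)) (hB : B0 ≠ 0)
    (e4 : 2 * lam * T0 = B0 ^ 2 - C4 + lam ^ 2) (e5 : 2 * mu * T0 = B0' ^ 2 - C5 + mu ^ 2)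
    (L : ℤ) : ∃ T B B' : ℤ, L < T ∧ q ∣ T - T0 ∧ T ^ 2 + C4 = (T - lam) ^ 2 + B ^ 2 ∧
      T ^ 2 + C5 = (T - mu) ^ 2 + B' ^ 2 := by
  obtain ⟨Q, hQ⟩ : ∃ Q : ℤ, Q = lam * mu * q := ⟨_, rfl⟩
  have hQ0 : 0 < Q := by rw [hQ]; positivity
  obtain ⟨t, s, hts, hbig⟩ := pell_large (mu * Q ^ 2) (lam * Q ^ 2) (mu * B0 * Q) (lam * B0' * Q)
    (by positivity) (by positivity) (by
      rintro ⟨k, hk⟩
      apply hns
      have h1 : (Q ^ 2) ^ 2 * (lam * mu) = k ^ 2 := by linear_combination hk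
      have h2 : (Q ^ 2) ^ 2 ∣ k ^ 2 := ⟨_, h1.symm⟩
      obtain ⟨j, rfl⟩ := (Int.pow_dvd_pow_iff (by norm_num)).mp h2
      refine ⟨j, ?_⟩
      have h3 : (Q ^ 2) ^ 2 ≠ 0 := by positivity
      apply mul_left_cancel₀ h3
      linear_combination h1) (Or.inl (by positivity)) (2 * lam * mu * |L - T0|)
  obtain ⟨δ, hδ⟩ : ∃ δ : ℤ, δ = 2 * mu * q * t * (Q * t + B0) := ⟨_, rfl⟩
  have hV : mu * Q ^ 2 * (2 * t) ^ 2 + 2 * (mu * B0 * Q) * (2 * t) = 2 * lam * mu * δ := by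
    rw [hδ, hQ]; ring
  rw [hV] at hts hbig
  have hpos : 0 < 2 * lam * mu := by positivity
  have hδL : |L - T0| < δ := lt_of_mul_lt_mul_left hbig hpos.le
  refine ⟨T0 + δ, B0 + 2 * Q * t, B0' + 2 * Q * s, ?_, ?_, ?_, ?_⟩
  · have := le_abs_self (L - T0); linarith
  · exact ⟨2 * mu * t * (Q * t + B0), by rw [hδ]; ring⟩
  · have h1 : mu * (2 * lam * δ) = mu * ((B0 + 2 * Q * t) ^ 2 - B0 ^ 2) := by
      linear_combination -hV
    have h2 := mul_left_cancel₀ hm.ne' h1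
    linear_combination e4 + h2
  · have h1 : lam * (2 * mu * δ) = lam * ((B0' + 2 * Q * s) ^ 2 - B0' ^ 2) := by
      linear_combination hts
    have h2 := mul_left_cancel₀ hl.ne' h1
    linear_combination e5 + h2

lemma sq2_scale {m : ℤ} (h : Sq2 m) (g : ℤ) : Sq2 (g ^ 2 * m) := by
  obtain ⟨x, y, rfl⟩ := h
  exact ⟨g * x, g * y, by ring⟩

lemma sq2_eps {m ε : ℤ} (h : Sq2 m) (hε : ε = 1 ∨ ε = 2) : Sq2 (ε * m) := by
  rcases hε with rfl | rfl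
  · rw [one_mul]; exact h
  · exact h.two_mul

/-- From one starting point to infinitely many `n`. The shifts are `0`, `ε g² k2`, `ε g² k3`,
`h4`, `h5`; the line is run with `g T`. -/
lemma start_inf {k2 k3 s w1 w2 w3 c τ i : ℤ} (D : LineData k2 k3 s w1 w2 w3 c τ i)
    (g ε e : ℤ) (hg : 0 < g) (hε : ε = 1 ∨ ε = 2) (he : ε * e = 2)
    (h4 h5 T0 lam mu B0 B0' : ℤ) (hl : 0 < lam) (hm : 0 < mu)
    (hns : ¬ IsSquare (lam * mu)) (hB : B0 ≠ 0) (hT : T0 % 2 = 1) (hTτ : s ∣ T0 - τ)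
    (e4 : 2 * lam * (g * T0) = B0 ^ 2 - (g ^ 2 * c + e * s * h4) + lam ^ 2)
    (e5 : 2 * mu * (g * T0) = B0' ^ 2 - (g ^ 2 * c + e * s * h5) + mu ^ 2) :
    Inf5 0 (ε * g ^ 2 * k2) (ε * g ^ 2 * k3) h4 h5 := by
  have hs0 : 0 < s := D.good.1
  have hs2 : s % 2 = 1 := by have := D.good.2.1; omega
  have hc0 : 0 ≤ c := by rw [← D.e1]; positivity
  have hε0 : 1 ≤ ε := by rcases hε with h | h <;> omega
  have hcodd : ∃ j, c = 2 * j + 1 := by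
    obtain ⟨k, hk⟩ : ∃ k, w1 = 2 * k + 1 := ⟨w1 / 2, by have := D.odd; omega⟩
    exact ⟨2 * k ^ 2 + 2 * k, by rw [← D.e1, hk]; ring⟩
  apply infinite_of_large
  intro L
  obtain ⟨Tt, B, B', hTL, hdvd, f4, f5⟩ := pell_family (g * T0) lam mu B0 B0'
    (g ^ 2 * c + e * s * h4) (g ^ 2 * c + e * s * h5) (2 * g * s) hl hm (by positivity) hns hB e4 e5
    (g * (2 * s * |L|))
  obtain ⟨z, hz⟩ := hdvd
  obtain ⟨T, hTt, hT0⟩ : ∃ T, Tt = g * T ∧ T = T0 + 2 * s * z :=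
    ⟨T0 + 2 * s * z, by linear_combination hz, rfl⟩
  have hTbig : 2 * s * |L| < T := by
    rw [hTt] at hTL
    exact lt_of_mul_lt_mul_left hTL hg.le
  have hT2 : ∃ k, T = 2 * k + 1 :=
    ⟨T0 / 2 + s * z, by rw [hT0]; have : T0 = 2 * (T0 / 2) + 1 := by omega
                        linear_combination this⟩
  have hdiv : 2 * s ∣ T ^ 2 + c := by
    apply IsCoprime.mul_dvd
    · exact ⟨-(s / 2), 1, by omega⟩
    · obtain ⟨k, hk⟩ := hT2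
      obtain ⟨j, hj⟩ := hcodd
      exact ⟨2 * k ^ 2 + 2 * k + j + 1, by rw [hk, hj]; ring⟩
    · have h1 : s ∣ T - τ := by
        have : T - τ = s * (2 * z) + (T0 - τ) := by rw [hT0]; ring
        rw [this]; exact (dvd_mul_right _ _).add hTτ
      have : T ^ 2 + c = (T - τ) * (T + τ) + (τ ^ 2 + c) := by ring
      rw [this]; exact (h1.mul_right _).add D.hτ
  obtain ⟨n, hn⟩ := hdiv
  have hnL : |L| < n := by
    have h0 : 0 ≤ |L| := abs_nonneg _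
    by_contra hcon
    push Not at hcon
    have h3 : 2 * s * n ≤ 2 * s * |L| := by
      apply mul_le_mul_of_nonneg_left hcon; positivity
    have hT1 : 1 ≤ T := by
      have : 0 ≤ 2 * s * |L| := by positivity
      linarith
    have h4 : T ≤ T ^ 2 := by nlinarith
    linarith
  have hn0 : 0 < n := lt_of_le_of_lt (abs_nonneg L) hnL
  have hεs : ∀ m, Sq2 m → Sq2 (ε * g ^ 2 * m) := by
    intro m hm
    have := sq2_eps (sq2_scale hm g) hε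
    rw [← mul_assoc] at this; exact this
  refine ⟨ε * g ^ 2 * n, ?_, ?_, ?_, ?_, ?_, ?_⟩
  · have h1 : 1 ≤ g ^ 2 := by nlinarith
    have h2 : 1 ≤ ε * g ^ 2 := by nlinarith
    have h3 : n ≤ ε * g ^ 2 * n := by nlinarith
    have := le_abs_self L
    linarith
  · rw [add_zero]
    apply hεs
    apply sq2_of_mul D.good
    exact ⟨T, w1, by rw [D.e1, ← hn]⟩
  · rw [← mul_add]
    apply hεs
    apply sq2_of_mul D.good
    exact ⟨T, w2, by rw [D.e2]; linear_combination -hn⟩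
  · rw [← mul_add]
    apply hεs
    apply sq2_of_mul D.good
    exact ⟨T, w3, by rw [D.e3]; linear_combination -hn⟩
  · apply sq2_of_mul D.good
    have : 2 * s * (ε * g ^ 2 * n + h4) = ε * ((Tt - lam) ^ 2 + B ^ 2) := by
      rw [← f4, hTt]
      linear_combination -(ε * g ^ 2) * hn - s * h4 * he
    rw [this]
    exact sq2_eps ⟨_, _, rfl⟩ hε
  · apply sq2_of_mul D.good
    have : 2 * s * (ε * g ^ 2 * n + h5) = ε * ((Tt - mu) ^ 2 + B' ^ 2) := by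
      rw [← f5, hTt]
      linear_combination -(ε * g ^ 2) * hn - s * h5 * he
    rw [this]
    exact sq2_eps ⟨_, _, rfl⟩ hε

lemma nsq {B D : ℤ} (hD : D ≠ 0) (h : |D| < |B|) : 0 < B ^ 2 - D ∧ ¬ IsSquare (B ^ 2 - D) := by
  have hD1 : 1 ≤ |D| := Int.one_le_abs hD
  have hB2 : B ^ 2 = |B| ^ 2 := (sq_abs B).symm
  have hle := le_abs_self D
  have hge := neg_abs_le D
  obtain ⟨b, hb⟩ : ∃ b, b = |B| := ⟨_, rfl⟩
  obtain ⟨d, hd⟩ : ∃ d, d = |D| := ⟨_, rfl⟩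
  rw [← hd] at hD1 hle hge h
  rw [hB2, ← hb]
  rw [← hb] at h
  constructor
  · nlinarith
  · rintro ⟨k, hk⟩
    obtain ⟨K, hK0, hK⟩ : ∃ K : ℤ, 0 ≤ K ∧ K ^ 2 = k * k := ⟨|k|, abs_nonneg k, by rw [sq_abs]; ring⟩
    rw [← hK] at hk
    rcases le_or_gt b K with h1 | h1
    · rcases lt_or_ge 0 D with h2 | h2
      · nlinarith
      · have h3 : D < 0 := lt_of_le_of_ne h2 hD
        have h4 : b < K := by
          by_contra hc
          have : K = b := by omega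
          rw [this] at hk; linarith
        nlinarith
    · nlinarith

lemma isCoprime_two_pow {s : ℤ} (hs : s % 2 = 1) (n : ℕ) : IsCoprime s (2 ^ n) := by
  have h : IsCoprime s 2 := ⟨1, -(s / 2), by omega⟩
  exact h.pow_right

/-- the residue of the starting point -/
lemma res_T0 {k2 k3 s w1 w2 w3 c τ i : ℤ} (D : LineData k2 k3 s w1 w2 w3 c τ i)
    (g lam B C T0 : ℤ) (n : ℕ) (hpow : 2 * lam * g = 2 ^ n)
    (hC : s ∣ C - g ^ 2 * c) (hB : s ∣ B - i * (g * τ - lam))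
    (e : 2 * lam * (g * T0) = B ^ 2 - C + lam ^ 2) : s ∣ T0 - τ := by
  have hs2 : s % 2 = 1 := by have := D.good.2.1; omega
  have hcop := isCoprime_two_pow hs2 n
  apply hcop.dvd_of_dvd_mul_left
  obtain ⟨x, hx⟩ := D.hτ
  obtain ⟨y, hy⟩ := D.hi
  obtain ⟨z, hz⟩ := hB
  obtain ⟨v, hv⟩ := hC
  refine ⟨2 * (i * (g * τ - lam)) * z + s * z ^ 2 + y * (g * τ - lam) ^ 2 - v - g ^ 2 * x, ?_⟩
  rw [← hpow]
  have hB' : B = i * (g * τ - lam) + s * z := by linear_combination hz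
  rw [hB'] at e
  linear_combination e - hv + (g * τ - lam) ^ 2 * hy - g ^ 2 * hx

/-- shared `A` -/
lemma shared_inf {k2 k3 s w1 w2 w3 c τ i : ℤ} (D : LineData k2 k3 s w1 w2 w3 c τ i)
    (g ε e lam : ℤ) (hg : 0 < g) (hε : ε = 1 ∨ ε = 2) (he : ε * e = 2) (hl : 0 < lam)
    (n : ℕ) (hpow : 2 * lam * g = 2 ^ n)
    (h4 h5 T0 B0 B0' : ℤ) (hT : T0 % 2 = 1)
    (e4 : 2 * lam * (g * T0) = B0 ^ 2 - (g ^ 2 * c + e * s * h4) + lam ^ 2)
    (e45 : B0 ^ 2 - B0' ^ 2 = e * s * (h4 - h5))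
    (hres : s ∣ B0 - i * (g * τ - lam))
    (hC : g ^ 2 * c + e * s * h4 ≠ 0) (hbig : |g ^ 2 * c + e * s * h4| < |B0|) :
    Inf5 0 (ε * g ^ 2 * k2) (ε * g ^ 2 * k3) h4 h5 := by
  obtain ⟨n1, n2⟩ := nsq hC hbig
  have hlm : lam * (2 * (g * T0) - lam) = B0 ^ 2 - (g ^ 2 * c + e * s * h4) := by
    linear_combination e4
  refine start_inf D g ε e hg hε he h4 h5 T0 lam (2 * (g * T0) - lam) B0 B0' hl ?_ ?_ ?_ hT ?_
    e4 ?_
  · rw [← hlm] at n1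
    exact (mul_pos_iff_of_pos_left hl).mp n1
  · rw [hlm]; exact n2
  · intro h
    rw [h, abs_zero] at hbig
    exact absurd hbig (not_lt.mpr (abs_nonneg _))
  · exact res_T0 D g lam B0 _ T0 n hpow ⟨e * h4, by ring⟩ hres e4
  · linear_combination e4 + e45

/-- `T - A = 4`, `T - A' = 1` -/
lemma unshared_inf {k2 k3 s w1 w2 w3 c τ i : ℤ} (D : LineData k2 k3 s w1 w2 w3 c τ i)
    (g ε e : ℤ) (hg : 0 < g) (hε : ε = 1 ∨ ε = 2) (he : ε * e = 2)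
    (n : ℕ) (hpow : 2 * 4 * g = 2 ^ n)
    (h4 h5 T0 B0 B0' : ℤ) (hT : T0 % 2 = 1)
    (e4 : 2 * 4 * (g * T0) = B0 ^ 2 - (g ^ 2 * c + e * s * h4) + 4 ^ 2)
    (e5 : 2 * (g * T0) = B0' ^ 2 - (g ^ 2 * c + e * s * h5) + 1)
    (hres : s ∣ B0 - i * (g * τ - 4))
    (hC : g ^ 2 * c + e * s * h4 - 12 ≠ 0) (hbig : |g ^ 2 * c + e * s * h4 - 12| < |B0|) :
    Inf5 0 (ε * g ^ 2 * k2) (ε * g ^ 2 * k3) h4 h5 := by
  obtain ⟨n1, n2⟩ := nsq hC hbig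
  have hlm : 4 * (2 * (g * T0) - 1) = B0 ^ 2 - (g ^ 2 * c + e * s * h4 - 12) := by
    linear_combination e4
  refine start_inf D g ε e hg hε he h4 h5 T0 4 (2 * (g * T0) - 1) B0 B0' (by norm_num) ?_ ?_ ?_ hT
    ?_ e4 ?_
  · linarith
  · rw [hlm]; exact n2
  · intro h
    rw [h, abs_zero] at hbig
    exact absurd hbig (not_lt.mpr (abs_nonneg _))
  · exact res_T0 D g 4 B0 _ T0 n hpow ⟨e * h4, by ring⟩ hres e4
  · linear_combination e5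

/-- `T - A = 1`, `T - A' = 4` -/
lemma unshared_inf' {k2 k3 s w1 w2 w3 c τ i : ℤ} (D : LineData k2 k3 s w1 w2 w3 c τ i)
    (g ε e : ℤ) (hg : 0 < g) (hε : ε = 1 ∨ ε = 2) (he : ε * e = 2)
    (n : ℕ) (hpow : 2 * 4 * g = 2 ^ n)
    (h4 h5 T0 B0 B0' : ℤ) (hT : T0 % 2 = 1)
    (e4 : 2 * (g * T0) = B0 ^ 2 - (g ^ 2 * c + e * s * h4) + 1)
    (e5 : 2 * 4 * (g * T0) = B0' ^ 2 - (g ^ 2 * c + e * s * h5) + 4 ^ 2)
    (hres : s ∣ B0' - i * (g * τ - 4))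
    (hC : g ^ 2 * c + e * s * h4 ≠ 0) (hbig : |g ^ 2 * c + e * s * h4| < |B0|) :
    Inf5 0 (ε * g ^ 2 * k2) (ε * g ^ 2 * k3) h4 h5 := by
  obtain ⟨n1, n2⟩ := nsq hC hbig
  have hlm : 2 * (g * T0) - 1 = B0 ^ 2 - (g ^ 2 * c + e * s * h4) := by
    linear_combination e4
  refine start_inf D g ε e hg hε he h4 h5 T0 (2 * (g * T0) - 1) 4 B0 B0' ?_ (by norm_num) ?_ ?_ hT
    ?_ ?_ e5
  · linarith
  · rw [hlm]
    rintro ⟨v, hv⟩
    apply n2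
    have h2 : (2 : ℤ) ∣ v ^ 2 := ⟨2 * (B0 ^ 2 - (g ^ 2 * c + e * s * h4)), by linear_combination -hv⟩
    obtain ⟨v', rfl⟩ := Int.prime_two.dvd_of_dvd_pow h2
    exact ⟨v', by linarith⟩
  · intro h
    rw [h, abs_zero] at hbig
    exact absurd hbig (not_lt.mpr (abs_nonneg _))
  · exact res_T0 D g 4 B0' _ T0 n hpow ⟨e * h5, by ring⟩ hres e5
  · linear_combination e4

lemma Inf5.swap45 {h1 h2 h3 h4 h5 : ℤ} (h : Inf5 h1 h2 h3 h5 h4) : Inf5 h1 h2 h3 h4 h5 :=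
  h.mono fun _ hn => ⟨hn.1, hn.2.1, hn.2.2.1, hn.2.2.2.2, hn.2.2.2.1⟩

end Pool.Agent.Lib.MP_0ea763_nt_Five
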