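import Mathlib
import Pool.Agent.Lib.MP_0ea763_nt_Five.Core

set_option autoImplicit false
set_option maxHeartbeats 400000

/-!
The starting points, one lemma for each pair of classes of `h4`, `h5`.
-/

namespace Pool.Agent.Lib.MP_0ea763_nt_Five

lemma big_of {B l s κ C a b : ℤ} (h : 8 * B = a * l + b * s * κ) (ha : |a| ≤ 8) (hb : 1 ≤ b)
    (hs : 1 ≤ s) (hC : 0 ≤ C) (hbig : 16 * (C + |l|) < |κ|) : C < |B| := by
  have h1 : |κ| ≤ |b * s * κ| := by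
    rw [abs_mul]
    have : 1 ≤ |b * s| := by
      rw [abs_of_pos (by positivity)]
      nlinarith
    nlinarith [abs_nonneg κ]
  have h2 : |a * l| ≤ 8 * |l| := by
    rw [abs_mul]
    exact mul_le_mul_of_nonneg_right ha (abs_nonneg l)
  have h3 : |b * s * κ| ≤ |8 * B| + |a * l| := by
    have e : b * s * κ = 8 * B - a * l := by rw [h]; ring
    rw [e]
    exact abs_sub (8 * B) (a * l)
  have h4 : |8 * B| = 8 * |B| := by rw [abs_mul]; norm_num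
  rw [h4] at h3
  have := abs_nonneg l
  linarith

/-- elementary facts about the line -/
lemma line_facts {k2 k3 s w1 w2 w3 c τ i : ℤ} (D : LineData k2 k3 s w1 w2 w3 c τ i) :
    (∃ j j2 : ℤ, c = 4 * j ^ 2 + 4 * j + 1 ∧ j ^ 2 + j = 2 * j2) ∧ (∃ r, s = 4 * r + 1) ∧
      1 ≤ s := by
  refine ⟨?_, ⟨s / 4, by have := D.good.2.1; omega⟩, D.good.1⟩
  obtain ⟨j, hj⟩ : ∃ j, w1 = 2 * j + 1 := ⟨w1 / 2, by have := D.odd; omega⟩
  obtain ⟨x, hx⟩ := Int.even_mul_succ_self j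
  exact ⟨j, x, by rw [← D.e1, hj]; ring, by linear_combination hx⟩

lemma dvd_of_odd {l x : ℤ} (hl : l % 2 = 1) (n : ℕ) (h : (2 : ℤ) ^ n ∣ l * x) :
    (2 : ℤ) ^ n ∣ x := (isCoprime_two_pow hl n).symm.dvd_of_dvd_mul_left h

variable {k2 k3 s w1 w2 w3 c τ i : ℤ}

/-- `h4 ≡ h5 ≡ 0 (mod 4)` -/
lemma cfg1 (D : LineData k2 k3 s w1 w2 w3 c τ i) (h4 h5 l κ : ℤ) (hl : l % 2 = 1)
    (m4 : h4 % 4 = 0) (m5 : h5 % 4 = 0) (hk : -2 * h5 + 2 * h4 = l * κ)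
    (hres : s ∣ l - i * (1 * τ - 2)) (hC : 12 < 1 ^ 2 * c + 2 * s * h4)
    (hbig : 16 * ((1 ^ 2 * c + 2 * s * h4) + |l|) < |κ|) :
    Inf5 0 (1 * 1 ^ 2 * k2) (1 * 1 ^ 2 * k3) h4 h5 := by
  obtain ⟨⟨j, j2, hc, hj⟩, ⟨r, hr⟩, hs1⟩ := line_facts D
  obtain ⟨k, hkl⟩ : ∃ k, l = 2 * k + 1 := ⟨l / 2, by omega⟩
  obtain ⟨x, hx⟩ : ∃ x, h4 = 4 * x := ⟨h4 / 4, by omega⟩
  obtain ⟨t, ht⟩ : ∃ t, κ = 8 * t := by
    have : (2 : ℤ) ^ 3 ∣ κ := dvd_of_odd hl 3 (by rw [← hk]; norm_num; omega)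
    obtain ⟨t, ht⟩ := this; exact ⟨t, by rw [ht]; norm_num⟩
  have h54 : h4 - h5 = 4 * (l * t) := by rw [ht] at hk; linarith
  obtain ⟨b, hb⟩ : ∃ b, b = k + s * t := ⟨_, rfl⟩
  obtain ⟨b2, hb2⟩ := Int.even_mul_succ_self b
  obtain ⟨T0, hT0⟩ : ∃ T0 : ℤ, T0 = 1 + (b ^ 2 + b - (j ^ 2 + j) - 2 * s * x) := ⟨_, rfl⟩
  have hT2 : T0 % 2 = 1 := by
    have : T0 = 2 * (b2 - j2 - s * x) + 1 := by rw [hT0]; linear_combination hb2 - hj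
    rw [this]; generalize b2 - j2 - s * x = y; omega
  have hB : l + 2 * s * t = 2 * b + 1 := by rw [hb, hkl]; ring
  refine shared_inf D 1 1 2 2 (by norm_num) (Or.inl rfl) (by norm_num) (by norm_num) 2 (by norm_num)
    h4 h5 T0 (l + 2 * s * t) (2 * s * t - l) hT2 ?_ ?_ ?_ (by linarith) ?_
  · rw [hB, hT0, hc, hx]; ring
  · rw [h54]; ring
  · have : l + 2 * s * t - i * (1 * τ - 2) = (l - i * (1 * τ - 2)) + s * (2 * t) := by ring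
    rw [this]; exact hres.add (dvd_mul_right _ _)
  · rw [abs_of_pos (by linarith)]
    exact big_of (l := l) (s := s) (κ := κ) (a := 8) (b := 2) (by rw [ht]; ring) (by norm_num)
      (by norm_num) hs1 (by linarith) hbig

/-- `h4`, `h5` odd, `h4 - h5 ≡ 2 (mod 4)` -/
lemma cfg3 (D : LineData k2 k3 s w1 w2 w3 c τ i) (h4 h5 l κ : ℤ) (hl : l % 2 = 1)
    (m4 : h4 % 2 = 1) (m5 : (h4 - h5) % 4 = 2) (hk : -2 * h5 + 2 * h4 = l * κ)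
    (hres : s ∣ l - i * (1 * τ - 1)) (hC : 12 < 1 ^ 2 * c + 2 * s * h4)
    (hbig : 16 * ((1 ^ 2 * c + 2 * s * h4) + |l|) < |κ|) :
    Inf5 0 (1 * 1 ^ 2 * k2) (1 * 1 ^ 2 * k3) h4 h5 := by
  obtain ⟨⟨j, j2, hc, hj⟩, ⟨r, hr⟩, hs1⟩ := line_facts D
  obtain ⟨k, hkl⟩ : ∃ k, l = 2 * k + 1 := ⟨l / 2, by omega⟩
  obtain ⟨x, hx⟩ : ∃ x, h4 = 2 * x + 1 := ⟨h4 / 2, by omega⟩
  obtain ⟨t, ht⟩ : ∃ t, κ = 4 * t := by
    have : (2 : ℤ) ^ 2 ∣ κ := dvd_of_odd hl 2 (by rw [← hk]; norm_num; omega)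
    obtain ⟨t, ht⟩ := this; exact ⟨t, by rw [ht]; norm_num⟩
  have h54 : h4 - h5 = 2 * (l * t) := by rw [ht] at hk; linarith
  obtain ⟨y, hy⟩ : ∃ y, t = 2 * y + 1 := by
    refine ⟨t / 2, ?_⟩
    by_contra hcon
    have h1 : t % 2 = 0 := by omega
    obtain ⟨v, hv⟩ : ∃ v, t = 2 * v := ⟨t / 2, by omega⟩
    have : h4 - h5 = 4 * (l * v) := by rw [h54, hv]; ring
    omega
  obtain ⟨b, hb⟩ : ∃ b, b = k + y + 4 * r * y + 2 * r + 1 := ⟨_, rfl⟩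
  obtain ⟨T0, hT0⟩ : ∃ T0 : ℤ, T0 = 2 * b ^ 2 - 2 * j ^ 2 - 2 * j - 2 * s * x - s := ⟨_, rfl⟩
  have hT2 : T0 % 2 = 1 := by
    have : T0 = 2 * (b ^ 2 - j ^ 2 - j - s * x - 2 * r - 1) + 1 := by
      rw [hT0]; linear_combination -hr
    rw [this]; generalize b ^ 2 - j ^ 2 - j - s * x - 2 * r - 1 = y; omega
  have hB : l + s * t = 2 * b := by rw [hb, hkl, hr, hy]; ring
  refine shared_inf D 1 1 2 1 (by norm_num) (Or.inl rfl) (by norm_num) (by norm_num) 1 (by norm_num)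
    h4 h5 T0 (l + s * t) (s * t - l) hT2 ?_ ?_ ?_ (by linarith) ?_
  · rw [hB, hT0, hc, hx]; ring
  · rw [h54]; ring
  · have : l + s * t - i * (1 * τ - 1) = (l - i * (1 * τ - 1)) + s * t := by ring
    rw [this]; exact hres.add (dvd_mul_right _ _)
  · rw [abs_of_pos (by linarith)]
    exact big_of (l := l) (s := s) (κ := κ) (a := 8) (b := 2) (by rw [ht]; ring) (by norm_num)
      (by norm_num) hs1 (by linarith) hbig

/-- `h4 ≡ 3 (mod 4)`, `h4 ≡ h5 (mod 8)` -/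
lemma cfg4a (D : LineData k2 k3 s w1 w2 w3 c τ i) (h4 h5 l κ : ℤ) (hl : l % 2 = 1)
    (m4 : h4 % 4 = 3) (m5 : (h4 - h5) % 8 = 0) (hk : -2 * h5 + 2 * h4 = l * κ)
    (hres : s ∣ l - i * (1 * τ - 1)) (hC : 12 < 1 ^ 2 * c + 1 * s * h4)
    (hbig : 16 * ((1 ^ 2 * c + 1 * s * h4) + |l|) < |κ|) :
    Inf5 0 (2 * 1 ^ 2 * k2) (2 * 1 ^ 2 * k3) h4 h5 := by
  obtain ⟨⟨j, j2, hc, hj⟩, ⟨r, hr⟩, hs1⟩ := line_facts D
  obtain ⟨k, hkl⟩ : ∃ k, l = 2 * k + 1 := ⟨l / 2, by omega⟩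
  obtain ⟨x, hx⟩ : ∃ x, h4 = 4 * x + 3 := ⟨h4 / 4, by omega⟩
  obtain ⟨t, ht⟩ : ∃ t, κ = 16 * t := by
    have : (2 : ℤ) ^ 4 ∣ κ := dvd_of_odd hl 4 (by rw [← hk]; norm_num; omega)
    obtain ⟨t, ht⟩ := this; exact ⟨t, by rw [ht]; norm_num⟩
  have h54 : h4 - h5 = 8 * (l * t) := by rw [ht] at hk; linarith
  obtain ⟨b, hb⟩ : ∃ b, b = k + s * t := ⟨_, rfl⟩
  obtain ⟨T0, hT0⟩ : ∃ T0 : ℤ, T0 = 2 * b ^ 2 + 2 * b - 2 * j ^ 2 - 2 * j - 2 * s * x - 1 - 6 * r :=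
    ⟨_, rfl⟩
  have hT2 : T0 % 2 = 1 := by
    have : T0 = 2 * (b ^ 2 + b - j ^ 2 - j - s * x - 3 * r - 1) + 1 := by
      rw [hT0]; ring
    rw [this]; generalize b ^ 2 + b - j ^ 2 - j - s * x - 3 * r - 1 = y; omega
  have hB : l + 2 * s * t = 2 * b + 1 := by rw [hb, hkl]; ring
  refine shared_inf D 1 2 1 1 (by norm_num) (Or.inr rfl) (by norm_num) (by norm_num) 1 (by norm_num)
    h4 h5 T0 (l + 2 * s * t) (2 * s * t - l) hT2 ?_ ?_ ?_ (by linarith) ?_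
  · rw [hB, hT0, hc, hx]; linear_combination 3 * hr
  · rw [h54]; ring
  · have : l + 2 * s * t - i * (1 * τ - 1) = (l - i * (1 * τ - 1)) + s * (2 * t) := by ring
    rw [this]; exact hres.add (dvd_mul_right _ _)
  · rw [abs_of_pos (by linarith)]
    exact big_of (l := l) (s := s) (κ := κ) (a := 8) (b := 1) (by rw [ht]; ring) (by norm_num)
      (by norm_num) hs1 (by linarith) hbig

lemma par4b (h4 h5 s b k y u v x r : ℤ) (hr : s = 4 * r + 1) (hx : h4 = 4 * x + 3)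
    (e1 : h4 - h5 = 4 * (4 * v + 2 * k + 2 * y + 1)) (e2 : b = k + y + 2 * u + 1)
    (ms : (s % 8 = 1 ∧ (h4 - h5) % 16 = (if h4 % 8 = 3 then 4 else 12)) ∨
      (s % 8 = 5 ∧ (h4 - h5) % 16 = (if h4 % 8 = 3 then 12 else 4))) :
    (b + x + r) % 2 = 1 := by
  split_ifs at ms with h38
  · rcases ms with ⟨a1, a2⟩ | ⟨a1, a2⟩ <;> omega
  · rcases ms with ⟨a1, a2⟩ | ⟨a1, a2⟩ <;> omega

/-- `h4 ≡ 3 (mod 4)`, `h4 - h5 ≡ 4 (mod 8)`, and a condition linking `s (mod 8)` with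
`h4 (mod 8)` and `h4 - h5 (mod 16)` -/
lemma cfg4b (D : LineData k2 k3 s w1 w2 w3 c τ i) (h4 h5 l κ : ℤ) (hl : l % 2 = 1)
    (m4 : h4 % 4 = 3) (m5 : (h4 - h5) % 8 = 4)
    (ms : (s % 8 = 1 ∧ (h4 - h5) % 16 = (if h4 % 8 = 3 then 4 else 12)) ∨
      (s % 8 = 5 ∧ (h4 - h5) % 16 = (if h4 % 8 = 3 then 12 else 4)))
    (hk : -2 * h5 + 2 * h4 = l * κ)
    (hres : s ∣ l - i * (1 * τ - 2)) (hC : 12 < 1 ^ 2 * c + 1 * s * h4)
    (hbig : 16 * ((1 ^ 2 * c + 1 * s * h4) + |l|) < |κ|) :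
    Inf5 0 (2 * 1 ^ 2 * k2) (2 * 1 ^ 2 * k3) h4 h5 := by
  obtain ⟨⟨j, j2, hc, hj⟩, ⟨r, hr⟩, hs1⟩ := line_facts D
  obtain ⟨k, hkl⟩ : ∃ k, l = 2 * k + 1 := ⟨l / 2, by omega⟩
  obtain ⟨x, hx⟩ : ∃ x, h4 = 4 * x + 3 := ⟨h4 / 4, by omega⟩
  obtain ⟨t, ht⟩ : ∃ t, κ = 8 * t := by
    have : (2 : ℤ) ^ 3 ∣ κ := dvd_of_odd hl 3 (by rw [← hk]; norm_num; omega)
    obtain ⟨t, ht⟩ := this; exact ⟨t, by rw [ht]; norm_num⟩
  have h54 : h4 - h5 = 4 * (l * t) := by rw [ht] at hk; linarith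
  obtain ⟨y, hy⟩ : ∃ y, t = 2 * y + 1 := by
    refine ⟨t / 2, ?_⟩
    by_contra hcon
    obtain ⟨v, hv⟩ : ∃ v, t = 2 * v := ⟨t / 2, by omega⟩
    have : h4 - h5 = 8 * (l * v) := by rw [h54, hv]; ring
    omega
  obtain ⟨b, hb⟩ : ∃ b, b = k + y + 4 * r * y + 2 * r + 1 := ⟨_, rfl⟩
  obtain ⟨T0, hT0⟩ : ∃ T0 : ℤ, T0 = b ^ 2 - j ^ 2 - j - s * x - 3 * r := ⟨_, rfl⟩
  have hB : l + s * t = 2 * b := by rw [hb, hkl, hr, hy]; ring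
  have hT2 : T0 % 2 = 1 := by
    -- parity of b + x + r
    have hbxr : (b + x + r) % 2 = 1 := by
      have e1 : h4 - h5 = 4 * (4 * (k * y) + 2 * k + 2 * y + 1) := by rw [h54, hkl, hy]; ring
      have e2 : b = k + y + 2 * (2 * r * y + r) + 1 := by rw [hb]; ring
      exact par4b h4 h5 s b k y _ _ x r hr hx e1 e2 ms
    obtain ⟨b2, hb2⟩ := Int.even_mul_succ_self b
    have : T0 = 2 * (b2 - b - j2 - 2 * r * x - 2 * r - x) + (b + x + r) := by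
      rw [hT0, hr]; linear_combination hb2 - hj
    rw [this]
    generalize b2 - b - j2 - 2 * r * x - 2 * r - x = y
    omega
  refine shared_inf D 1 2 1 2 (by norm_num) (Or.inr rfl) (by norm_num) (by norm_num) 2 (by norm_num)
    h4 h5 T0 (l + s * t) (s * t - l) hT2 ?_ ?_ ?_ (by linarith) ?_
  · rw [hB, hT0, hc, hx]; linear_combination 3 * hr
  · rw [h54]; ring
  · have : l + s * t - i * (1 * τ - 2) = (l - i * (1 * τ - 2)) + s * t := by ring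
    rw [this]; exact hres.add (dvd_mul_right _ _)
  · rw [abs_of_pos (by linarith)]
    exact big_of (l := l) (s := s) (κ := κ) (a := 8) (b := 1) (by rw [ht]; ring) (by norm_num)
      (by norm_num) hs1 (by linarith) hbig

/-- residue of `b = (l + s t) / 2` -/
lemma res_half {s b l t ρ : ℤ} (hs : s % 2 = 1) (hb : 2 * b = l + s * t) (h : s ∣ l - 2 * ρ) :
    s ∣ b - ρ := by
  have hc2 := isCoprime_two_pow hs 1
  rw [pow_one] at hc2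
  apply hc2.dvd_of_dvd_mul_left
  have : 2 * (b - ρ) = (l - 2 * ρ) + s * t := by linear_combination hb
  rw [this]; exact h.add (dvd_mul_right _ _)

/-- `{h4, h5} ≡ {2, 3} (mod 4)` -/
lemma cfg5 (D : LineData k2 k3 s w1 w2 w3 c τ i) (h4 h5 l κ : ℤ) (hl : l % 2 = 1)
    (m : (h4 % 4 = 3 ∧ h5 % 4 = 2) ∨ (h4 % 4 = 2 ∧ h5 % 4 = 3)) (hk : -2 * h5 + 2 * h4 = l * κ)
    (hres : s ∣ l - 2 * (i * (1 * τ - 1))) (hC : 12 < 1 ^ 2 * c + 1 * s * h4)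
    (hbig : 16 * ((1 ^ 2 * c + 1 * s * h4) + |l|) < |κ|) :
    Inf5 0 (2 * 1 ^ 2 * k2) (2 * 1 ^ 2 * k3) h4 h5 := by
  obtain ⟨⟨j, j2, hc, hj⟩, ⟨r, hr⟩, hs1⟩ := line_facts D
  obtain ⟨k, hkl⟩ : ∃ k, l = 2 * k + 1 := ⟨l / 2, by omega⟩
  obtain ⟨t, ht⟩ : ∃ t, κ = 2 * t := by
    have : (2 : ℤ) ^ 1 ∣ κ := dvd_of_odd hl 1 (by rw [← hk, pow_one]; omega)
    obtain ⟨t, ht⟩ := this; exact ⟨t, by rw [ht]; norm_num⟩
  have h54 : h4 - h5 = l * t := by rw [ht] at hk; linarith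
  obtain ⟨y, hy⟩ : ∃ y, t = 2 * y + 1 := by
    refine ⟨t / 2, ?_⟩
    by_contra hcon
    obtain ⟨v, hv⟩ : ∃ v, t = 2 * v := ⟨t / 2, by omega⟩
    have : h4 - h5 = 2 * (l * v) := by rw [h54, hv]; ring
    omega
  obtain ⟨b, hb⟩ : ∃ b, b = k + y + 4 * r * y + 2 * r + 1 := ⟨_, rfl⟩
  have hB : 2 * b = l + s * t := by rw [hb, hkl, hr, hy]; ring
  have e1 : h4 - h5 = 4 * (k * y) + 2 * (k + y) + 1 := by rw [h54, hkl, hy]; ring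
  have e2 : b = k + y + 2 * (2 * r * y + r) + 1 := by rw [hb]; ring
  have hs2 : s % 2 = 1 := by omega
  have hbig' : |1 ^ 2 * c + 1 * s * h4| < |b| := by
    rw [abs_of_pos (by linarith)]
    exact big_of (l := l) (s := s) (κ := κ) (a := 4) (b := 2) (by rw [ht]; linear_combination 4 * hB)
      (by norm_num) (by norm_num) hs1 (by linarith) hbig
  have hr' := res_half hs2 hB hres
  rcases m with ⟨m4, m5⟩ | ⟨m4, m5⟩
  · obtain ⟨x, hx⟩ : ∃ x, h4 = 4 * x + 3 := ⟨h4 / 4, by omega⟩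
    obtain ⟨z, hz⟩ : ∃ z, b = 2 * z + 1 := by
      refine ⟨b / 2, ?_⟩
      generalize 2 * r * y + r = u at e2
      generalize k * y = v at e1
      omega
    obtain ⟨T0, hT0⟩ : ∃ T0 : ℤ,
      T0 = 2 * z ^ 2 + 2 * z - 2 * j ^ 2 - 2 * j - 2 * s * x - 1 - 6 * r := ⟨_, rfl⟩
    have hT2 : T0 % 2 = 1 := by
      have : T0 = 2 * (z ^ 2 + z - j ^ 2 - j - s * x - 3 * r - 1) + 1 := by
        rw [hT0]; ring
      rw [this]; generalize z ^ 2 + z - j ^ 2 - j - s * x - 3 * r - 1 = y; omega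
    refine shared_inf D 1 2 1 1 (by norm_num) (Or.inr rfl) (by norm_num) (by norm_num) 1
      (by norm_num) h4 h5 T0 b (b - l) hT2 ?_ ?_ hr' (by linarith) hbig'
    · rw [hz, hT0, hc, hx]; linear_combination 3 * hr
    · rw [h54]; linear_combination l * hB
  · obtain ⟨x, hx⟩ : ∃ x, h4 = 4 * x + 2 := ⟨h4 / 4, by omega⟩
    obtain ⟨z, hz⟩ : ∃ z, b = 2 * z := by
      refine ⟨b / 2, ?_⟩
      generalize 2 * r * y + r = u at e2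
      generalize k * y = v at e1
      omega
    obtain ⟨T0, hT0⟩ : ∃ T0 : ℤ,
      T0 = 2 * z ^ 2 - 2 * j ^ 2 - 2 * j - 2 * s * x - s := ⟨_, rfl⟩
    have hT2 : T0 % 2 = 1 := by
      have : T0 = 2 * (z ^ 2 - j ^ 2 - j - s * x - 2 * r - 1) + 1 := by
        rw [hT0]; linear_combination -hr
      rw [this]; generalize z ^ 2 - j ^ 2 - j - s * x - 2 * r - 1 = y; omega
    refine shared_inf D 1 2 1 1 (by norm_num) (Or.inr rfl) (by norm_num) (by norm_num) 1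
      (by norm_num) h4 h5 T0 b (b - l) hT2 ?_ ?_ hr' (by linarith) hbig'
    · rw [hz, hT0, hc, hx]; ring
    · rw [h54]; linear_combination l * hB

/-- `h4 ≡ h5 ≡ 1 (mod 4)` -/
lemma cfg6 (D : LineData k2 k3 s w1 w2 w3 c τ i) (h4 h5 l κ : ℤ) (hl : l % 2 = 1)
    (m4 : h4 % 4 = 1) (m5 : h5 % 4 = 1) (hk : -2 * h5 + 2 * h4 = l * κ)
    (hres : s ∣ l - i * (2 * τ - 1)) (hC : 12 < 2 ^ 2 * c + 2 * s * h4)
    (hbig : 16 * ((2 ^ 2 * c + 2 * s * h4) + |l|) < |κ|) :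
    Inf5 0 (1 * 2 ^ 2 * k2) (1 * 2 ^ 2 * k3) h4 h5 := by
  obtain ⟨⟨j, j2, hc, hj⟩, ⟨r, hr⟩, hs1⟩ := line_facts D
  obtain ⟨k, hkl⟩ : ∃ k, l = 2 * k + 1 := ⟨l / 2, by omega⟩
  obtain ⟨x, hx⟩ : ∃ x, h4 = 4 * x + 1 := ⟨h4 / 4, by omega⟩
  obtain ⟨t, ht⟩ : ∃ t, κ = 8 * t := by
    have : (2 : ℤ) ^ 3 ∣ κ := dvd_of_odd hl 3 (by rw [← hk]; norm_num; omega)
    obtain ⟨t, ht⟩ := this; exact ⟨t, by rw [ht]; norm_num⟩
  have h54 : h4 - h5 = 4 * (l * t) := by rw [ht] at hk; linarith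
  obtain ⟨b, hb⟩ : ∃ b, b = k + s * t := ⟨_, rfl⟩
  obtain ⟨b2, hb2⟩ := Int.even_mul_succ_self b
  obtain ⟨T0, hT0⟩ : ∃ T0 : ℤ, T0 = b ^ 2 + b - 4 * j ^ 2 - 4 * j - 2 * s * x - 1 - 2 * r :=
    ⟨_, rfl⟩
  have hT2 : T0 % 2 = 1 := by
    have : T0 = 2 * (b2 - 2 * j ^ 2 - 2 * j - s * x - r - 1) + 1 := by
      rw [hT0]; linear_combination hb2
    rw [this]; generalize b2 - 2 * j ^ 2 - 2 * j - s * x - r - 1 = y; omega
  have hB : l + 2 * s * t = 2 * b + 1 := by rw [hb, hkl]; ring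
  refine shared_inf D 2 1 2 1 (by norm_num) (Or.inl rfl) (by norm_num) (by norm_num) 2 (by norm_num)
    h4 h5 T0 (l + 2 * s * t) (2 * s * t - l) hT2 ?_ ?_ ?_ (by linarith) ?_
  · rw [hB, hT0, hc, hx]; linear_combination 2 * hr
  · rw [h54]; ring
  · have : l + 2 * s * t - i * (2 * τ - 1) = (l - i * (2 * τ - 1)) + s * (2 * t) := by ring
    rw [this]; exact hres.add (dvd_mul_right _ _)
  · rw [abs_of_pos (by linarith)]
    exact big_of (l := l) (s := s) (κ := κ) (a := 8) (b := 2) (by rw [ht]; ring) (by norm_num)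
      (by norm_num) hs1 (by linarith) hbig

/-- one of `h4`, `h5` is `1 (mod 4)` and the other `2 (mod 8)` -/
lemma cfg8 (D : LineData k2 k3 s w1 w2 w3 c τ i) (h4 h5 l κ : ℤ) (hl : l % 2 = 1)
    (m : (h4 % 4 = 1 ∧ h5 % 8 = 2) ∨ (h4 % 8 = 2 ∧ h5 % 4 = 1)) (hk : -2 * h5 + 2 * h4 = l * κ)
    (hres : s ∣ l - 2 * (i * (2 * τ - 1))) (hC : 12 < 2 ^ 2 * c + 1 * s * h4)
    (hbig : 16 * ((2 ^ 2 * c + 1 * s * h4) + |l|) < |κ|) :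
    Inf5 0 (2 * 2 ^ 2 * k2) (2 * 2 ^ 2 * k3) h4 h5 := by
  obtain ⟨⟨j, j2, hc, hj⟩, ⟨r, hr⟩, hs1⟩ := line_facts D
  obtain ⟨k, hkl⟩ : ∃ k, l = 2 * k + 1 := ⟨l / 2, by omega⟩
  obtain ⟨t, ht⟩ : ∃ t, κ = 2 * t := by
    have : (2 : ℤ) ^ 1 ∣ κ := dvd_of_odd hl 1 (by rw [← hk, pow_one]; omega)
    obtain ⟨t, ht⟩ := this; exact ⟨t, by rw [ht]; norm_num⟩
  have h54 : h4 - h5 = l * t := by rw [ht] at hk; linarith
  obtain ⟨y, hy⟩ : ∃ y, t = 2 * y + 1 := by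
    refine ⟨t / 2, ?_⟩
    by_contra hcon
    obtain ⟨v, hv⟩ : ∃ v, t = 2 * v := ⟨t / 2, by omega⟩
    have : h4 - h5 = 2 * (l * v) := by rw [h54, hv]; ring
    omega
  obtain ⟨b, hb⟩ : ∃ b, b = k + y + 4 * r * y + 2 * r + 1 := ⟨_, rfl⟩
  have hB : 2 * b = l + s * t := by rw [hb, hkl, hr, hy]; ring
  have e1 : h4 - h5 = 4 * (k * y) + 2 * (k + y) + 1 := by rw [h54, hkl, hy]; ring
  have e2 : b = k + y + 2 * (2 * r * y + r) + 1 := by rw [hb]; ring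
  have hs2 : s % 2 = 1 := by omega
  have e45 : b ^ 2 - (b - l) ^ 2 = 1 * s * (h4 - h5) := by rw [h54]; linear_combination l * hB
  have hbig' : |2 ^ 2 * c + 1 * s * h4| < |b| := by
    rw [abs_of_pos (by linarith)]
    exact big_of (l := l) (s := s) (κ := κ) (a := 4) (b := 2) (by rw [ht]; linear_combination 4 * hB)
      (by norm_num) (by norm_num) hs1 (by linarith) hbig
  have hr' := res_half hs2 hB hres
  rcases m with ⟨m4, m5⟩ | ⟨m4, m5⟩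
  · obtain ⟨x, hx⟩ : ∃ x, h5 = 8 * x + 2 := ⟨h5 / 8, by omega⟩
    obtain ⟨z, hz⟩ : ∃ z, b - l = 2 * z + 1 := by
      refine ⟨(b - l) / 2, ?_⟩
      generalize 2 * r * y + r = u at e2
      generalize k * y = v at e1
      omega
    obtain ⟨z2, hz2⟩ := Int.even_mul_succ_self z
    obtain ⟨T0, hT0⟩ : ∃ T0 : ℤ,
      T0 = z ^ 2 + z - 4 * j ^ 2 - 4 * j - 2 * s * x - 1 - 2 * r := ⟨_, rfl⟩
    have hT2 : T0 % 2 = 1 := by
      have : T0 = 2 * (z2 - 2 * j ^ 2 - 2 * j - s * x - r - 1) + 1 := by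
        rw [hT0]; linear_combination hz2
      rw [this]; generalize z2 - 2 * j ^ 2 - 2 * j - s * x - r - 1 = y; omega
    refine shared_inf D 2 2 1 1 (by norm_num) (Or.inr rfl) (by norm_num) (by norm_num) 2
      (by norm_num) h4 h5 T0 b (b - l) hT2 ?_ e45 hr' (by linarith) hbig'
    have e5 : 2 * 1 * (2 * T0) = (b - l) ^ 2 - (2 ^ 2 * c + 1 * s * h5) + 1 ^ 2 := by
      rw [hz, hT0, hc, hx]; linear_combination 2 * hr
    linear_combination e5 - e45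
  · obtain ⟨x, hx⟩ : ∃ x, h4 = 8 * x + 2 := ⟨h4 / 8, by omega⟩
    obtain ⟨z, hz⟩ : ∃ z, b = 2 * z + 1 := by
      refine ⟨b / 2, ?_⟩
      generalize 2 * r * y + r = u at e2
      generalize k * y = v at e1
      omega
    obtain ⟨z2, hz2⟩ := Int.even_mul_succ_self z
    obtain ⟨T0, hT0⟩ : ∃ T0 : ℤ,
      T0 = z ^ 2 + z - 4 * j ^ 2 - 4 * j - 2 * s * x - 1 - 2 * r := ⟨_, rfl⟩
    have hT2 : T0 % 2 = 1 := by
      have : T0 = 2 * (z2 - 2 * j ^ 2 - 2 * j - s * x - r - 1) + 1 := by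
        rw [hT0]; linear_combination hz2
      rw [this]; generalize z2 - 2 * j ^ 2 - 2 * j - s * x - r - 1 = y; omega
    refine shared_inf D 2 2 1 1 (by norm_num) (Or.inr rfl) (by norm_num) (by norm_num) 2
      (by norm_num) h4 h5 T0 b (b - l) hT2 ?_ e45 hr' (by linarith) hbig'
    rw [hz, hT0, hc, hx]; linear_combination 2 * hr

lemma coprime_i {s i : ℤ} (h : s ∣ i ^ 2 + 1) : IsCoprime i s := by
  obtain ⟨y, hy⟩ := h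
  exact ⟨-i, y, by linear_combination -hy⟩

lemma coprime_three {s : ℤ} (h : Good s) : IsCoprime (3 : ℤ) s := by
  apply isCoprime_of_no_prime
  intro p hp hd3 hds
  have h4 := eq_three hp hd3
  have h5 := h.2.2 p hp hds
  omega

/-- the residue of the cofactor, `g = 1` -/
lemma cof1 (D : LineData k2 k3 s w1 w2 w3 c τ i) (l κ K : ℤ) (hK : s ∣ K + 3 * c + 12)
    (hlk : l * κ = K) (hres : s ∣ l - 3 * (i * (τ - 2))) (hc : IsCoprime (τ - 2) s) :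
    s ∣ κ + i * (τ + 2) := by
  obtain ⟨x, hx⟩ := D.hτ
  obtain ⟨y, hy⟩ := D.hi
  obtain ⟨z, hz⟩ := hres
  obtain ⟨v, hv⟩ := hK
  have hl' : l = 3 * (i * (τ - 2)) + s * z := by linear_combination hz
  have hcl : IsCoprime l s := by
    rw [hl', IsCoprime.add_mul_left_left_iff]
    exact (coprime_three D.good).mul_left ((coprime_i D.hi).mul_left hc)
  apply hcl.symm.dvd_of_dvd_mul_left
  refine ⟨v + 3 * (τ - 2) * (τ + 2) * y + z * (i * (τ + 2)) - 3 * x, ?_⟩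
  have : l * (κ + i * (τ + 2)) = K + l * (i * (τ + 2)) := by rw [← hlk]; ring
  rw [this, hl']
  linear_combination hv + 3 * (τ - 2) * (τ + 2) * hy - 3 * hx

/-- the residue of the cofactor, `g = 2` -/
lemma cof2 (D : LineData k2 k3 s w1 w2 w3 c τ i) (l κ K : ℤ) (hK : s ∣ K + 3 * c + 3)
    (hlk : l * κ = K) (hres : s ∣ l - 3 * (i * (τ - 1))) (hc : IsCoprime (τ - 1) s) :
    s ∣ κ + i * (τ + 1) := by
  obtain ⟨x, hx⟩ := D.hτ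
  obtain ⟨y, hy⟩ := D.hi
  obtain ⟨z, hz⟩ := hres
  obtain ⟨v, hv⟩ := hK
  have hl' : l = 3 * (i * (τ - 1)) + s * z := by linear_combination hz
  have hcl : IsCoprime l s := by
    rw [hl', IsCoprime.add_mul_left_left_iff]
    exact (coprime_three D.good).mul_left ((coprime_i D.hi).mul_left hc)
  apply hcl.symm.dvd_of_dvd_mul_left
  refine ⟨v + 3 * (τ - 1) * (τ + 1) * y + z * (i * (τ + 1)) - 3 * x, ?_⟩
  have : l * (κ + i * (τ + 1)) = K + l * (i * (τ + 1)) := by rw [← hlk]; ring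
  rw [this, hl']
  linear_combination hv + 3 * (τ - 1) * (τ + 1) * hy - 3 * hx

/-- `(l + κ) / 2` modulo `s`, `g = 1` -/
lemma mid1 {s i τ l κ m : ℤ} (hs : s % 2 = 1) (hm : κ = l + 8 * m)
    (h1 : s ∣ l - 3 * (i * (τ - 2))) (h2 : s ∣ κ + i * (τ + 2)) :
    s ∣ (l + 4 * m) - i * (1 * τ - 4) := by
  have hc2 := isCoprime_two_pow hs 1
  rw [pow_one] at hc2
  apply hc2.dvd_of_dvd_mul_left
  have : 2 * ((l + 4 * m) - i * (1 * τ - 4)) = (l - 3 * (i * (τ - 2))) + (κ + i * (τ + 2)) := by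
    rw [hm]; ring
  rw [this]; exact h1.add h2

/-- a number `l * κ ≡ 1 (mod 8)` -/
lemma cof8 {l κ y : ℤ} (hl : l % 2 = 1) (h : l * κ = 8 * y + 1) : ∃ m, κ = l + 8 * m := by
  obtain ⟨k, hk⟩ : ∃ k, l = 2 * k + 1 := ⟨l / 2, by omega⟩
  obtain ⟨k2, hk2⟩ := Int.even_mul_succ_self k
  have h8 : (2 : ℤ) ^ 3 ∣ l * (κ - l) := by
    refine ⟨y - k2, ?_⟩
    rw [mul_sub, h, hk]; linear_combination -4 * hk2
  obtain ⟨m, hm⟩ := dvd_of_odd hl 3 h8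
  exact ⟨m, by linear_combination hm⟩

/-- `h4 ≡ 0 (mod 4)`, `h5` odd -/
lemma cfgU41a (D : LineData k2 k3 s w1 w2 w3 c τ i) (h4 h5 l κ : ℤ) (hl : l % 2 = 1)
    (m4 : h4 % 4 = 0) (m5 : h5 % 2 = 1)
    (hk : -(8 * s) * h5 + (2 * s * h4 - 3 * c - 12) = l * κ)
    (hres : s ∣ l - 3 * (i * (τ - 2))) (hcop : IsCoprime (τ - 2) s)
    (hC : 12 < 1 ^ 2 * c + 2 * s * h4)
    (hbig : 16 * ((1 ^ 2 * c + 2 * s * h4) + |l|) < |κ|) :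
    Inf5 0 (1 * 1 ^ 2 * k2) (1 * 1 ^ 2 * k3) h4 h5 := by
  obtain ⟨⟨j, j2, hc, hj⟩, ⟨r, hr⟩, hs1⟩ := line_facts D
  have hs2 : s % 2 = 1 := by omega
  obtain ⟨x, hx⟩ : ∃ x, h4 = 4 * x := ⟨h4 / 4, by omega⟩
  obtain ⟨f, hf⟩ : ∃ f, h5 = 2 * f + 1 := ⟨h5 / 2, by omega⟩
  obtain ⟨m, hm⟩ : ∃ m, κ = l + 8 * m := by
    apply cof8 hl (y := -s * h5 + s * x - 3 * j2 - 2)
    rw [← hk, hx, hc]; linear_combination -12 * hj
  obtain ⟨T0, hT0⟩ : ∃ T0 : ℤ, T0 = 2 * m ^ 2 - 2 * j ^ 2 - 2 * j - 2 * s * f - s := ⟨_, rfl⟩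
  have hT2 : T0 % 2 = 1 := by
    have : T0 = 2 * (m ^ 2 - j ^ 2 - j - s * f - 2 * r - 1) + 1 := by
      rw [hT0]; linear_combination -hr
    rw [this]; generalize m ^ 2 - j ^ 2 - j - s * f - 2 * r - 1 = y; omega
  have e5 : 2 * (1 * T0) = (2 * m) ^ 2 - (1 ^ 2 * c + 2 * s * h5) + 1 := by
    rw [hT0, hf, hc]; ring
  have e4 : 2 * 4 * (1 * T0) = (l + 4 * m) ^ 2 - (1 ^ 2 * c + 2 * s * h4) + 4 ^ 2 := by
    rw [hm] at hk
    linear_combination 4 * e5 + hk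
  have h2 := cof1 D l κ _ ⟨-8 * h5 + 2 * h4, by ring⟩ hk.symm hres hcop
  refine unshared_inf D 1 1 2 (by norm_num) (Or.inl rfl) (by norm_num) 3 (by norm_num)
    h4 h5 T0 (l + 4 * m) (2 * m) hT2 e4 e5 (mid1 hs2 hm hres h2) (by linarith) ?_
  rw [abs_of_pos (by linarith)]
  have : 1 ^ 2 * c + 2 * s * h4 < |l + 4 * m| :=
    big_of (l := l) (s := 1) (κ := κ) (a := 4) (b := 4) (by rw [hm]; ring) (by norm_num)
      (by norm_num) (by norm_num) (by linarith) hbig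
  linarith

/-- `h4` odd, `h5 ≡ 0 (mod 4)` -/
lemma cfgU14a (D : LineData k2 k3 s w1 w2 w3 c τ i) (h4 h5 l κ : ℤ) (hl : l % 2 = 1)
    (m4 : h4 % 2 = 1) (m5 : h5 % 4 = 0)
    (hk : 2 * s * h5 + (-(8 * s) * h4 - 3 * c - 12) = l * κ)
    (hres : s ∣ l - 3 * (i * (τ - 2))) (hcop : IsCoprime (τ - 2) s)
    (hC : 12 < 1 ^ 2 * c + 2 * s * h4)
    (hbig : 16 * ((1 ^ 2 * c + 2 * s * h4) + |l|) < |κ|) :
    Inf5 0 (1 * 1 ^ 2 * k2) (1 * 1 ^ 2 * k3) h4 h5 := by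
  obtain ⟨⟨j, j2, hc, hj⟩, ⟨r, hr⟩, hs1⟩ := line_facts D
  have hs2 : s % 2 = 1 := by omega
  obtain ⟨x, hx⟩ : ∃ x, h4 = 2 * x + 1 := ⟨h4 / 2, by omega⟩
  obtain ⟨f, hf⟩ : ∃ f, h5 = 4 * f := ⟨h5 / 4, by omega⟩
  obtain ⟨m, hm⟩ : ∃ m, κ = l + 8 * m := by
    apply cof8 hl (y := s * f - s * h4 - 3 * j2 - 2)
    rw [← hk, hf, hc]; linear_combination -12 * hj
  obtain ⟨T0, hT0⟩ : ∃ T0 : ℤ, T0 = 2 * m ^ 2 - 2 * j ^ 2 - 2 * j - 2 * s * x - s := ⟨_, rfl⟩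
  have hT2 : T0 % 2 = 1 := by
    have : T0 = 2 * (m ^ 2 - j ^ 2 - j - s * x - 2 * r - 1) + 1 := by
      rw [hT0]; linear_combination -hr
    rw [this]; generalize m ^ 2 - j ^ 2 - j - s * x - 2 * r - 1 = y; omega
  have e4 : 2 * (1 * T0) = (2 * m) ^ 2 - (1 ^ 2 * c + 2 * s * h4) + 1 := by
    rw [hT0, hx, hc]; ring
  have e5 : 2 * 4 * (1 * T0) = (l + 4 * m) ^ 2 - (1 ^ 2 * c + 2 * s * h5) + 4 ^ 2 := by
    rw [hm] at hk
    linear_combination 4 * e4 + hk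
  have h2 := cof1 D l κ _ ⟨2 * h5 - 8 * h4, by ring⟩ hk.symm hres hcop
  refine unshared_inf' D 1 1 2 (by norm_num) (Or.inl rfl) (by norm_num) 3 (by norm_num)
    h4 h5 T0 (2 * m) (l + 4 * m) hT2 e4 e5 (mid1 hs2 hm hres h2) (by linarith) ?_
  rw [abs_of_pos (by linarith)]
  exact big_of (l := l) (s := 1) (κ := κ) (a := -2) (b := 2) (by rw [hm]; ring) (by norm_num)
      (by norm_num) (by norm_num) (by linarith) hbig

/-- a number `l * κ ≡ 3 (mod 4)` -/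
lemma cof4 {l κ y : ℤ} (hl : l % 2 = 1) (h : l * κ = 4 * y + 3) : ∃ m, κ = -l + 4 * m := by
  obtain ⟨k, hk⟩ : ∃ k, l = 2 * k + 1 := ⟨l / 2, by omega⟩
  have h8 : (2 : ℤ) ^ 2 ∣ l * (κ + l) := by
    refine ⟨y + k ^ 2 + k + 1, ?_⟩
    rw [mul_add, h, hk]; ring
  obtain ⟨m, hm⟩ := dvd_of_odd hl 2 h8
  exact ⟨m, by linear_combination hm⟩

/-- `h4 ≡ 1 (mod 4)`, `h5 ≡ 6 (mod 8)` -/
lemma cfgU14b (D : LineData k2 k3 s w1 w2 w3 c τ i) (h4 h5 l κ : ℤ) (hl : l % 2 = 1)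
    (m4 : h4 % 4 = 1) (m5 : h5 % 8 = 6)
    (hk : 2 * s * h5 + (-(8 * s) * h4 - 12 * c - 12) = l * κ)
    (hres : s ∣ l - 3 * (i * (τ - 1))) (hcop : IsCoprime (τ - 1) s)
    (hC : 12 < 2 ^ 2 * c + 2 * s * h4)
    (hbig : 16 * ((2 ^ 2 * c + 2 * s * h4) + |l|) < |κ|) :
    Inf5 0 (1 * 2 ^ 2 * k2) (1 * 2 ^ 2 * k3) h4 h5 := by
  obtain ⟨⟨j, j2, hc, hj⟩, ⟨r, hr⟩, hs1⟩ := line_facts D
  have hs2 : s % 2 = 1 := by omega
  obtain ⟨x, hx⟩ : ∃ x, h4 = 4 * x + 1 := ⟨h4 / 4, by omega⟩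
  obtain ⟨f, hf⟩ : ∃ f, h5 = 8 * f + 6 := ⟨h5 / 8, by omega⟩
  obtain ⟨κ', hκ'⟩ : ∃ κ', κ = 4 * κ' := by
    have : (2 : ℤ) ^ 2 ∣ κ := by
      apply dvd_of_odd hl 2
      rw [← hk]
      exact ⟨s * (4 * f + 3) - 2 * s * h4 - 3 * c - 3, by rw [hf]; ring⟩
    obtain ⟨t, ht⟩ := this; exact ⟨t, by rw [ht]; norm_num⟩
  have hk' : l * κ' = s * (4 * f + 3) - 2 * s * (4 * x + 1) - 3 * c - 3 := by
    have : 4 * (l * κ') = 4 * (s * (4 * f + 3) - 2 * s * (4 * x + 1) - 3 * c - 3) := by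
      rw [hκ'] at hk; rw [hf, hx] at hk; linear_combination -hk
    linarith
  obtain ⟨m, hm⟩ : ∃ m, κ' = -l + 4 * m := by
    apply cof4 hl (y := s * f - 2 * s * x - 3 * j ^ 2 - 3 * j + r - 2)
    rw [hk', hc]; linear_combination hr
  obtain ⟨k, hkl⟩ : ∃ k, l = 2 * k + 1 := ⟨l / 2, by omega⟩
  obtain ⟨z, hz⟩ : ∃ z, z = m - k - 1 := ⟨_, rfl⟩
  obtain ⟨z2, hz2⟩ := Int.even_mul_succ_self z
  have hB : 2 * m - l = 2 * z + 1 := by rw [hz, hkl]; ring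
  obtain ⟨T0, hT0⟩ : ∃ T0 : ℤ, T0 = z ^ 2 + z - 4 * j ^ 2 - 4 * j - 2 * s * x - 1 - 2 * r :=
    ⟨_, rfl⟩
  have hT2 : T0 % 2 = 1 := by
    have : T0 = 2 * (z2 - 2 * j ^ 2 - 2 * j - s * x - r - 1) + 1 := by
      rw [hT0]; linear_combination hz2
    rw [this]; generalize z2 - 2 * j ^ 2 - 2 * j - s * x - r - 1 = y; omega
  have e4 : 2 * (2 * T0) = (2 * m - l) ^ 2 - (2 ^ 2 * c + 2 * s * h4) + 1 := by
    rw [hB, hT0, hx, hc]; linear_combination 2 * hr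
  have e5 : 2 * 4 * (2 * T0) = (4 * m) ^ 2 - (2 ^ 2 * c + 2 * s * h5) + 4 ^ 2 := by
    rw [hκ', hm] at hk
    linear_combination 4 * e4 + hk
  have h2 := cof2 D l κ' _ ⟨(4 * f + 3) - 2 * (4 * x + 1), by ring⟩ hk' hres hcop
  have hr2 : s ∣ 4 * m - i * (2 * τ - 4) := by
    have : 4 * m - i * (2 * τ - 4) = (l - 3 * (i * (τ - 1))) + (κ' + i * (τ + 1)) := by
      rw [hm]; ring
    rw [this]; exact hres.add h2
  refine unshared_inf' D 2 1 2 (by norm_num) (Or.inl rfl) (by norm_num) 4 (by norm_num)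
    h4 h5 T0 (2 * m - l) (4 * m) hT2 e4 e5 hr2 (by linarith) ?_
  rw [abs_of_pos (by linarith)]
  exact big_of (l := l) (s := 1) (κ := κ) (a := -4) (b := 1) (by rw [hκ', hm]; ring)
      (by norm_num) (by norm_num) (by norm_num) (by linarith) hbig

/-- `h4 ≡ 6 (mod 8)`, `h5 ≡ 1 (mod 4)` -/
lemma cfgU41b (D : LineData k2 k3 s w1 w2 w3 c τ i) (h4 h5 l κ : ℤ) (hl : l % 2 = 1)
    (m4 : h4 % 8 = 6) (m5 : h5 % 4 = 1)
    (hk : -(8 * s) * h5 + (2 * s * h4 - 12 * c - 12) = l * κ)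
    (hres : s ∣ l - 3 * (i * (τ - 1))) (hcop : IsCoprime (τ - 1) s)
    (hC : 12 < 2 ^ 2 * c + 2 * s * h4)
    (hbig : 16 * ((2 ^ 2 * c + 2 * s * h4) + |l|) < |κ|) :
    Inf5 0 (1 * 2 ^ 2 * k2) (1 * 2 ^ 2 * k3) h4 h5 := by
  obtain ⟨⟨j, j2, hc, hj⟩, ⟨r, hr⟩, hs1⟩ := line_facts D
  have hs2 : s % 2 = 1 := by omega
  obtain ⟨x, hx⟩ : ∃ x, h5 = 4 * x + 1 := ⟨h5 / 4, by omega⟩
  obtain ⟨f, hf⟩ : ∃ f, h4 = 8 * f + 6 := ⟨h4 / 8, by omega⟩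
  obtain ⟨κ', hκ'⟩ : ∃ κ', κ = 4 * κ' := by
    have : (2 : ℤ) ^ 2 ∣ κ := by
      apply dvd_of_odd hl 2
      rw [← hk]
      exact ⟨s * (4 * f + 3) - 2 * s * h5 - 3 * c - 3, by rw [hf]; ring⟩
    obtain ⟨t, ht⟩ := this; exact ⟨t, by rw [ht]; norm_num⟩
  have hk' : l * κ' = s * (4 * f + 3) - 2 * s * (4 * x + 1) - 3 * c - 3 := by
    have : 4 * (l * κ') = 4 * (s * (4 * f + 3) - 2 * s * (4 * x + 1) - 3 * c - 3) := by
      rw [hκ'] at hk; rw [hf, hx] at hk; linear_combination -hk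
    linarith
  obtain ⟨m, hm⟩ : ∃ m, κ' = -l + 4 * m := by
    apply cof4 hl (y := s * f - 2 * s * x - 3 * j ^ 2 - 3 * j + r - 2)
    rw [hk', hc]; linear_combination hr
  obtain ⟨k, hkl⟩ : ∃ k, l = 2 * k + 1 := ⟨l / 2, by omega⟩
  obtain ⟨z, hz⟩ : ∃ z, z = m - k - 1 := ⟨_, rfl⟩
  obtain ⟨z2, hz2⟩ := Int.even_mul_succ_self z
  have hB : 2 * m - l = 2 * z + 1 := by rw [hz, hkl]; ring
  obtain ⟨T0, hT0⟩ : ∃ T0 : ℤ, T0 = z ^ 2 + z - 4 * j ^ 2 - 4 * j - 2 * s * x - 1 - 2 * r :=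
    ⟨_, rfl⟩
  have hT2 : T0 % 2 = 1 := by
    have : T0 = 2 * (z2 - 2 * j ^ 2 - 2 * j - s * x - r - 1) + 1 := by
      rw [hT0]; linear_combination hz2
    rw [this]; generalize z2 - 2 * j ^ 2 - 2 * j - s * x - r - 1 = y; omega
  have e5 : 2 * (2 * T0) = (2 * m - l) ^ 2 - (2 ^ 2 * c + 2 * s * h5) + 1 := by
    rw [hB, hT0, hx, hc]; linear_combination 2 * hr
  have e4 : 2 * 4 * (2 * T0) = (4 * m) ^ 2 - (2 ^ 2 * c + 2 * s * h4) + 4 ^ 2 := by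
    rw [hκ', hm] at hk
    linear_combination 4 * e5 + hk
  have h2 := cof2 D l κ' _ ⟨(4 * f + 3) - 2 * (4 * x + 1), by ring⟩ hk' hres hcop
  have hr2 : s ∣ 4 * m - i * (2 * τ - 4) := by
    have : 4 * m - i * (2 * τ - 4) = (l - 3 * (i * (τ - 1))) + (κ' + i * (τ + 1)) := by
      rw [hm]; ring
    rw [this]; exact hres.add h2
  refine unshared_inf D 2 1 2 (by norm_num) (Or.inl rfl) (by norm_num) 4 (by norm_num)
    h4 h5 T0 (4 * m) (2 * m - l) hT2 e4 e5 hr2 (by linarith) ?_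
  rw [abs_of_pos (by linarith)]
  have : 2 ^ 2 * c + 2 * s * h4 < |4 * m| :=
    big_of (l := l) (s := 1) (κ := κ) (a := 8) (b := 2) (by rw [hκ', hm]; ring)
      (by norm_num) (by norm_num) (by norm_num) (by linarith) hbig
  linarith

end Pool.Agent.Lib.MP_0ea763_nt_Five
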