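import Mathlib
import Pool.Agent.Lib.MP_e5c236_nt_AlmostAll.Density

set_option autoImplicit false
set_option maxHeartbeats 4000000

/-!
Sets of integers of density zero, and a covering criterion by primes of a residue class.
-/

namespace Pool.Agent.Lib.MP_0ea763_nt_Five

open Filter Topology
open Pool.Agent.Lib.MP_e5c236_nt_AlmostAll (primeInv primeInv_nonneg not_summable_primeInv)

/-- `#{h ∈ E : |h| ≤ X} / X → 0`. -/
def ZeroDensity (E : Set ℤ) : Prop :=
  Tendsto (fun X : ℕ => (({h : ℤ | |h| ≤ (X : ℤ) ∧ h ∈ E}.ncard : ℝ) / (X : ℝ))) atTop (𝓝 0)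

lemma finite_abs_le (X : ℤ) : {h : ℤ | |h| ≤ X}.Finite := by
  apply (Set.finite_Icc (-X) X).subset
  intro h hh
  exact ⟨(abs_le.mp hh).1, (abs_le.mp hh).2⟩

lemma ZeroDensity.mono {E F : Set ℤ} (hF : ZeroDensity F) (h : E ⊆ F) : ZeroDensity E := by
  unfold ZeroDensity at *
  refine squeeze_zero (fun X => by positivity) (fun X => ?_) hF
  apply div_le_div_of_nonneg_right _ (Nat.cast_nonneg X)
  have : {h : ℤ | |h| ≤ (X : ℤ) ∧ h ∈ E} ⊆ {h : ℤ | |h| ≤ (X : ℤ) ∧ h ∈ F} :=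
    fun x hx => ⟨hx.1, h hx.2⟩
  exact_mod_cast Set.ncard_le_ncard this ((finite_abs_le X).subset fun x hx => hx.1)

lemma ZeroDensity.union {E F : Set ℤ} (hE : ZeroDensity E) (hF : ZeroDensity F) :
    ZeroDensity (E ∪ F) := by
  unfold ZeroDensity at *
  have h := hE.add hF
  rw [add_zero] at h
  refine squeeze_zero (fun X => by positivity) (fun X => ?_) h
  rw [← add_div]
  apply div_le_div_of_nonneg_right _ (Nat.cast_nonneg X)
  have : {h : ℤ | |h| ≤ (X : ℤ) ∧ h ∈ E ∪ F} =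
      {h : ℤ | |h| ≤ (X : ℤ) ∧ h ∈ E} ∪ {h : ℤ | |h| ≤ (X : ℤ) ∧ h ∈ F} := by
    ext x; simp only [Set.mem_ofPred_eq, Set.mem_union]; tauto
  rw [this]
  exact_mod_cast Set.ncard_union_le _ _

/-- coprime residues in an interval of integers -/
lemma count_coprime (M X : ℕ) (hM : M ≠ 0) (c : ℤ) (S : Finset ℤ)
    (hS : ∀ h ∈ S, |h| ≤ (X : ℤ) ∧ IsCoprime (h + c) (M : ℤ)) :
    S.card ≤ M.totient * ((2 * X + 1) / M + 1) := by
  have hMpos : (0 : ℤ) < M := by exact_mod_cast Nat.pos_of_ne_zero hM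
  obtain ⟨r, hr⟩ : ∃ r : ℕ, (r : ℤ) = (c - X) % M :=
    ⟨((c - X) % M).toNat, Int.toNat_of_nonneg (Int.emod_nonneg _ hMpos.ne')⟩
  refine le_trans ?_ (Nat.Ico_filter_coprime_le r (2 * X + 1) hM)
  apply Finset.card_le_card_of_injOn (fun h : ℤ => (h + X + r).toNat)
  · intro h hh
    obtain ⟨h1, h2⟩ := hS h hh
    obtain ⟨h3, h4⟩ := abs_le.mp h1
    have e : (((h + X + r).toNat : ℕ) : ℤ) = h + X + r := Int.toNat_of_nonneg (by omega)
    simp only [Finset.coe_filter, Finset.mem_Ico, Set.mem_ofPred_eq]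
    refine ⟨⟨by omega, by omega⟩, ?_⟩
    rw [← Nat.isCoprime_iff_coprime, e, hr]
    have : h + X + (c - X) % M = (h + c) + (-((c - X) / M)) * M := by
      have := Int.emod_add_mul_ediv (c - X) M
      linear_combination this
    rw [this]
    exact (IsCoprime.add_mul_right_left_iff.mpr h2).symm
  · intro x hx y hy hxy
    have h1 := (abs_le.mp (hS x hx).1)
    have h2 := (abs_le.mp (hS y hy).1)
    have hxy' : (x + X + r).toNat = (y + X + r).toNat := hxy
    omega

/-- The covering criterion: if for every prime `p ≡ a (mod q)` not dividing `α` only finitely many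
elements `h` of `E` satisfy `p ∣ α h + β`, then `E` has density zero. -/
theorem zeroDensity_of_primes {q : ℕ} [NeZero q] {a : ZMod q} (ha : IsUnit a) (α β : ℤ)
    (hα : α ≠ 0) (E : Set ℤ)
    (hE : ∀ p : ℕ, p.Prime → (p : ZMod q) = a → ¬ (p : ℤ) ∣ α →
      {h : ℤ | h ∈ E ∧ (p : ℤ) ∣ α * h + β}.Finite) : ZeroDensity E := by
  classical
  have hdiv : Tendsto (fun n => ∑ i ∈ Finset.range n, primeInv q a i) atTop atTop :=
    (not_summable_iff_tendsto_nat_atTop_of_nonneg (primeInv_nonneg q a)).1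
      (not_summable_primeInv ha)
  unfold ZeroDensity
  rw [Metric.tendsto_atTop]
  intro ε hε
  obtain ⟨A, hA⟩ : ∃ A : ℕ, A = α.natAbs + 1 := ⟨_, rfl⟩
  obtain ⟨T, hT⟩ := (hdiv.eventually_gt_atTop
    (-Real.log (ε / 8) + ∑ i ∈ Finset.range A, primeInv q a i)).exists
  set F : Finset ℕ := (Finset.range T).filter (fun p => (p.Prime ∧ (p : ZMod q) = a) ∧ A ≤ p)
    with hF
  have hFprime : ∀ p ∈ F, p.Prime := fun p hp => (Finset.mem_filter.1 hp).2.1.1
  have hFa : ∀ p ∈ F, (p : ZMod q) = a := fun p hp => (Finset.mem_filter.1 hp).2.1.2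
  have hFα : ∀ p ∈ F, ¬ (p : ℤ) ∣ α := by
    intro p hp hd
    have h1 : p ≤ α.natAbs := Nat.le_of_dvd (Int.natAbs_pos.mpr hα) (Int.natCast_dvd.mp hd)
    have h2 := (Finset.mem_filter.1 hp).2.2
    omega
  have hFsum : -Real.log (ε / 8) < ∑ p ∈ F, 1 / (p : ℝ) := by
    have h1 : ∑ i ∈ Finset.range T, primeInv q a i ≤
        ∑ i ∈ Finset.range A, primeInv q a i + ∑ p ∈ F, 1 / (p : ℝ) := by
      have e1 : ∑ p ∈ F, 1 / (p : ℝ) =
          ∑ i ∈ (Finset.range T).filter (fun i => A ≤ i), primeInv q a i := by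
        rw [hF, ← Finset.filter_filter, Finset.filter_comm, Finset.sum_filter]
        rfl
      rw [e1, ← Finset.sum_filter_add_sum_filter_not (Finset.range T) (fun i => A ≤ i), add_comm]
      apply add_le_add_left
      apply Finset.sum_le_sum_of_subset_of_nonneg
      · intro i hi
        rw [Finset.mem_filter] at hi
        rw [Finset.mem_range]; omega
      · intro i _ _; exact primeInv_nonneg q a i
    linarith
  set M : ℕ := ∏ p ∈ F, p with hM
  have hMpos : 0 < M := Finset.prod_pos fun p hp => (hFprime p hp).pos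
  have hMfac : M.primeFactors = F := Nat.primeFactors_prod hFprime
  have hphi : (M.totient : ℝ) < ε / 8 * M := by
    have h1 : (M.totient : ℝ) = M * ∏ p ∈ F, (1 - (p : ℝ)⁻¹) := by
      have := Nat.totient_eq_mul_prod_factors M
      rw [hMfac] at this
      have h2 : ((M.totient : ℚ) : ℝ) = ((M * ∏ p ∈ F, (1 - (p : ℚ)⁻¹) : ℚ) : ℝ) := by
        rw [this]
      push_cast at h2
      exact h2
    have h2 : ∏ p ∈ F, (1 - (p : ℝ)⁻¹) ≤ Real.exp (-∑ p ∈ F, 1 / (p : ℝ)) := by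
      rw [← Finset.sum_neg_distrib, Real.exp_sum]
      refine Finset.prod_le_prod (fun p hp => ?_) (fun p hp => ?_)
      · have : (1 : ℝ) ≤ p := by exact_mod_cast (hFprime p hp).one_le
        rw [sub_nonneg]
        exact inv_le_one_of_one_le₀ this
      · have := Real.add_one_le_exp (-(1 / (p : ℝ)))
        rw [one_div] at this ⊢
        linarith
    have h3 : Real.exp (-∑ p ∈ F, 1 / (p : ℝ)) < ε / 8 := by
      rw [← Real.exp_log (show 0 < ε / 8 by positivity)]
      exact Real.exp_lt_exp.2 (by linarith)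
    have hM' : (0 : ℝ) < M := by exact_mod_cast hMpos
    rw [h1, mul_comm]
    exact mul_lt_mul_of_pos_right (h2.trans_lt h3) hM'
  -- the inverse of α
  have hαM : IsCoprime α (M : ℤ) := by
    rw [hM]; push_cast
    apply IsCoprime.prod_right
    intro p hp
    exact ((Nat.prime_iff_prime_int.mp (hFprime p hp)).coprime_iff_not_dvd.mpr (hFα p hp)).symm
  obtain ⟨x, y, hxy⟩ := hαM
  -- the finite exceptional part
  set G : Set ℤ := ⋃ p ∈ F, {h : ℤ | h ∈ E ∧ (p : ℤ) ∣ α * h + β} with hG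
  have hGfin : G.Finite := by
    rw [hG]
    apply Set.Finite.biUnion F.finite_toSet
    intro p hp
    exact hE p (hFprime p hp) (hFa p hp) (hFα p hp)
  have hcount : ∀ X : ℕ, (({h : ℤ | |h| ≤ (X : ℤ) ∧ h ∈ E}.ncard : ℝ)) ≤
      G.ncard + M + ε / 8 * (2 * X + 1) := by
    intro X
    have hfin : {h : ℤ | |h| ≤ (X : ℤ) ∧ ∀ p ∈ F, ¬ (p : ℤ) ∣ α * h + β}.Finite :=
      (finite_abs_le X).subset fun x hx => hx.1
    have hsub : {h : ℤ | |h| ≤ (X : ℤ) ∧ h ∈ E} ⊆
        G ∪ {h : ℤ | |h| ≤ (X : ℤ) ∧ ∀ p ∈ F, ¬ (p : ℤ) ∣ α * h + β} := by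
      intro h hh
      by_cases hc : ∀ p ∈ F, ¬ (p : ℤ) ∣ α * h + β
      · exact Or.inr ⟨hh.1, hc⟩
      · push Not at hc
        obtain ⟨p, hp, hd⟩ := hc
        left
        rw [hG, Set.mem_iUnion₂]
        exact ⟨p, hp, hh.2, hd⟩
    have h1 : {h : ℤ | |h| ≤ (X : ℤ) ∧ h ∈ E}.ncard ≤ G.ncard +
        {h : ℤ | |h| ≤ (X : ℤ) ∧ ∀ p ∈ F, ¬ (p : ℤ) ∣ α * h + β}.ncard :=
      (Set.ncard_le_ncard hsub (hGfin.union hfin)).trans (Set.ncard_union_le _ _)
    have h2 : {h : ℤ | |h| ≤ (X : ℤ) ∧ ∀ p ∈ F, ¬ (p : ℤ) ∣ α * h + β}.ncard ≤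
        M.totient * ((2 * X + 1) / M + 1) := by
      rw [Set.ncard_eq_toFinset_card _ hfin]
      apply count_coprime M X hMpos.ne' (x * β)
      intro h hh
      rw [Set.Finite.mem_toFinset] at hh
      refine ⟨hh.1, ?_⟩
      rw [hM]; push_cast
      apply IsCoprime.prod_right
      intro p hp
      refine ((Nat.prime_iff_prime_int.mp (hFprime p hp)).coprime_iff_not_dvd.mpr ?_).symm
      intro hd
      apply hh.2 p hp
      have hpM : (p : ℤ) ∣ (M : ℤ) := by
        rw [hM]; exact_mod_cast Finset.dvd_prod_of_mem (fun p => p) hp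
      have : α * h + β = α * (h + x * β) + (y * β) * M := by
        linear_combination (-β) * hxy
      rw [this]
      exact (hd.mul_left α).add (hpM.mul_left _)
    have h3 : ((M.totient * ((2 * X + 1) / M + 1) : ℕ) : ℝ) ≤ M + ε / 8 * (2 * X + 1) := by
      have hM' : (0 : ℝ) < M := by exact_mod_cast hMpos
      have h4 : (((2 * X + 1) / M : ℕ) : ℝ) ≤ (2 * X + 1) / M := by
        have := @Nat.cast_div_le ℝ _ _ _ (2 * X + 1) M
        push_cast at this
        exact this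
      have h5 : (M.totient : ℝ) ≤ M := by exact_mod_cast Nat.totient_le M
      push_cast
      have h6 : (M.totient : ℝ) * (((2 * X + 1) / M : ℕ) : ℝ) ≤ ε / 8 * M * ((2 * X + 1) / M) :=
        mul_le_mul hphi.le h4 (by positivity) (by positivity)
      have h7 : ε / 8 * M * ((2 * (X : ℝ) + 1) / M) = ε / 8 * (2 * X + 1) := by
        field_simp
      rw [h7] at h6
      linarith
    have h4 : (({h : ℤ | |h| ≤ (X : ℤ) ∧ h ∈ E}.ncard : ℝ)) ≤
        ((G.ncard + M.totient * ((2 * X + 1) / M + 1) : ℕ) : ℝ) := by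
      exact_mod_cast h1.trans (Nat.add_le_add_left h2 _)
    rw [Nat.cast_add] at h4
    linarith
  obtain ⟨X0, hX0⟩ := exists_nat_gt ((G.ncard + M + ε) * (2 / ε) + 1)
  refine ⟨X0, fun X hX => ?_⟩
  have hX1 : (X0 : ℝ) ≤ X := by exact_mod_cast hX
  have hXpos : (0 : ℝ) < X := by
    have : (0 : ℝ) < (G.ncard + M + ε) * (2 / ε) + 1 := by positivity
    linarith
  rw [Real.dist_eq, sub_zero, abs_of_nonneg (by positivity), div_lt_iff₀ hXpos]
  have h1 := hcount X
  have h2 : (G.ncard + M + ε) < ε / 2 * X := by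
    have h3 : (G.ncard + M + ε) * (2 / ε) < X := by linarith
    have h4 : (G.ncard + M + ε) * (2 / ε) * (ε / 2) < X * (ε / 2) :=
      mul_lt_mul_of_pos_right h3 (by positivity)
    have h5 : ((G.ncard : ℝ) + M + ε) * (2 / ε) * (ε / 2) = G.ncard + M + ε := by
      field_simp
    rw [h5] at h4
    linarith
  nlinarith

end Pool.Agent.Lib.MP_0ea763_nt_Five
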