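import Mathlib
import Pool.Agent.Lib.MP_0ea763_nt_Five.Config
import Pool.Agent.Lib.MP_0ea763_nt_Five.Density

set_option autoImplicit false
set_option maxHeartbeats 400000

/-!
Five shifts, almost all fifth shifts: the assembly.
-/

namespace Pool.Agent.Lib.MP_0ea763_nt_Five

open Filter Topology
open Pool.Agent.Lib.MP_0ea763_nt (Sq2)

lemma odd_of_prime_ndvd {p : ℕ} (hp : p.Prime) {α : ℤ} (h2 : (2 : ℤ) ∣ α) (h : ¬ (p : ℤ) ∣ α) :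
    (p : ℤ) % 2 = 1 := by
  rcases hp.eq_two_or_odd with h3 | h3
  · subst h3; exact absurd h2 h
  · omega

/-- residues: from `ZMod` to divisibility -/
lemma dvd_of_zmod {s : ℤ} (hs : 0 < s) {p : ℕ} {r : ℤ}
    (h : (p : ZMod s.toNat) = ((r : ℤ) : ZMod s.toNat)) : s ∣ (p : ℤ) - r := by
  have h1 : (((p : ℤ) - r : ℤ) : ZMod s.toNat) = 0 := by
    push_cast; rw [h]; ring
  have h2 := (ZMod.intCast_zmod_eq_zero_iff_dvd _ _).mp h1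
  rwa [Int.toNat_of_nonneg hs.le] at h2

lemma isUnit_of_coprime {s : ℤ} (hs : 0 < s) {r : ℤ} (h : IsCoprime r s) :
    IsUnit ((r : ℤ) : ZMod s.toNat) := by
  obtain ⟨a, b, hab⟩ := h
  have : ((a : ℤ) : ZMod s.toNat) * ((r : ℤ) : ZMod s.toNat) = 1 := by
    have h1 : ((a * r + b * s : ℤ) : ZMod s.toNat) = 1 := by rw [hab]; simp
    have h2 : ((s : ℤ) : ZMod s.toNat) = 0 := by
      rw [ZMod.intCast_zmod_eq_zero_iff_dvd, Int.toNat_of_nonneg hs.le]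
    push_cast at h1
    rw [h2, mul_zero, add_zero] at h1
    exact h1
  exact IsUnit.of_mul_eq_one_right _ this

lemma zero_lin {s : ℤ} (hs0 : 0 < s) (r : ℤ) (hr : IsCoprime r s) (α β : ℤ) (hα0 : α ≠ 0)
    (hα2 : (2 : ℤ) ∣ α) (E : Set ℤ) (L : ℤ → ℤ)
    (hE : ∀ h ∈ E, ∀ p : ℕ, p.Prime → (p : ℤ) % 2 = 1 → s ∣ (p : ℤ) - r →
      ∀ κ, α * h + β = p * κ → |κ| ≤ L p) : ZeroDensity E := by
  have : NeZero s.toNat := ⟨by omega⟩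
  refine zeroDensity_of_primes (q := s.toNat) (isUnit_of_coprime hs0 hr) α β hα0 _ ?_
  intro p hp hpa hα
  have hp2 := odd_of_prime_ndvd hp hα2 hα
  have hres := dvd_of_zmod hs0 hpa
  obtain ⟨K, hK⟩ : ∃ K : ℤ, K = p * L p + |β| := ⟨_, rfl⟩
  apply (Set.finite_Icc (-K) K).subset
  rintro h ⟨hh, κ, hκ⟩
  have hp0 : (0 : ℤ) < p := by exact_mod_cast hp.pos
  have j1 := hE h hh p hp hp2 hres κ hκ
  have j2 : |h| ≤ |α * h| := by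
    rw [abs_mul]
    have : 1 ≤ |α| := Int.one_le_abs hα0
    nlinarith [abs_nonneg h]
  have j3 : |α * h| ≤ p * |κ| + |β| := by
    have e : α * h = p * κ - β := by linear_combination hκ
    rw [e]
    have := abs_sub (p * κ) β
    rw [abs_mul, abs_of_pos hp0] at this
    exact this
  have j4 : (p : ℤ) * |κ| ≤ p * L p := mul_le_mul_of_nonneg_left j1 hp0.le
  have j5 : |h| ≤ K := by rw [hK]; linarith
  exact ⟨(abs_le.mp j5).1, (abs_le.mp j5).2⟩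

lemma z_of (h2 h3 h4 s r α β C : ℤ) (hs0 : 0 < s) (hr : IsCoprime r s) (hα0 : α ≠ 0)
    (hα2 : (2 : ℤ) ∣ α) (Cl : ℤ → Prop)
    (H : ∀ h5 l κ : ℤ, Cl h5 → l % 2 = 1 → α * h5 + β = l * κ → s ∣ l - r →
      16 * (C + |l|) < |κ| → Inf5 0 h2 h3 h4 h5) :
    ZeroDensity {h5 : ℤ | Cl h5 ∧ ¬ Inf5 0 h2 h3 h4 h5} := by
  refine zero_lin hs0 r hr α β hα0 hα2 _ (fun p => 16 * (C + |p|)) ?_
  rintro h ⟨h1, h2⟩ p hp hp2 hres κ hκ
  by_contra hcon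
  exact h2 (H h p κ h1 hp2 hκ hres (not_le.mp hcon))

/-- `C4` is large -/
lemma pos_C {g e s c h4 : ℤ} (hL : (2 * |h4| + 13) * s < c) (hs : 1 ≤ s) (he0 : 0 ≤ e)
    (he2 : e ≤ 2) (hg : 1 ≤ g ^ 2) : 12 < g ^ 2 * c + e * s * h4 := by
  have h0 := abs_nonneg h4
  have h1 : 0 < c := lt_of_le_of_lt (by positivity) hL
  have h2 : c ≤ g ^ 2 * c := by nlinarith
  have h3 : -(2 * s * |h4|) ≤ e * s * h4 := by
    have h4' := neg_abs_le (e * s * h4)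
    have h5 : |e * s * h4| ≤ 2 * s * |h4| := by
      rw [abs_mul, abs_mul, abs_of_nonneg he0, abs_of_pos (by linarith : 0 < s)]
      gcongr
    linarith
  nlinarith

/-- the hypotheses on the triple `0, h2, h3` -/
structure Triple (h2 h3 : ℤ) : Prop where
  n2 : h2 ≠ 0
  n3 : h3 ≠ 0
  n23 : h2 ≠ h3
  m2 : h2 % 64 = 0
  m3 : h3 % 64 = 0
  nc : h2 % 3 = 0 ∨ h3 % 3 = 0 ∨ (h2 - h3) % 3 = 0

lemma z1 {h2 h3 h4 : ℤ} (H : Triple h2 h3) (m4 : h4 % 4 = 0) :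
    ZeroDensity {h5 : ℤ | h5 % 4 = 0 ∧ ¬ Inf5 0 h2 h3 h4 h5} := by
  obtain ⟨n2, n3, n23, m2, m3, nc⟩ := H
  obtain ⟨s, w1, w2, w3, c, τ, i, D, hc, hL, -⟩ := hasLine h2 h3 n2 n3 n23 (by omega)
    (by omega) nc 1 2 (Or.inr rfl) (2 * |h4| + 13) 0 (Or.inl rfl)
  have hs0 := D.good.1
  refine z_of h2 h3 h4 s (i * (1 * τ - 2)) (-2) (2 * h4) (1 ^ 2 * c + 2 * s * h4) hs0
    ((coprime_i D.hi).mul_left hc) (by norm_num) (by norm_num) _ ?_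
  intro h5 l κ hcl hl hk hres hbig
  have := cfg1 D h4 h5 l κ hl m4 hcl hk hres
    (pos_C hL hs0 (by norm_num) (by norm_num) (by norm_num)) hbig
  rw [show (1 : ℤ) * 1 ^ 2 * h2 = h2 by ring, show (1 : ℤ) * 1 ^ 2 * h3 = h3 by ring] at this
  exact this

lemma z3 {h2 h3 h4 : ℤ} (H : Triple h2 h3) (m4 : h4 % 2 = 1) :
    ZeroDensity {h5 : ℤ | (h4 - h5) % 4 = 2 ∧ ¬ Inf5 0 h2 h3 h4 h5} := by
  obtain ⟨n2, n3, n23, m2, m3, nc⟩ := H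
  obtain ⟨s, w1, w2, w3, c, τ, i, D, hc, hL, -⟩ := hasLine h2 h3 n2 n3 n23 (by omega)
    (by omega) nc 1 1 (Or.inl rfl) (2 * |h4| + 13) 0 (Or.inl rfl)
  have hs0 := D.good.1
  refine z_of h2 h3 h4 s (i * (1 * τ - 1)) (-2) (2 * h4) (1 ^ 2 * c + 2 * s * h4) hs0
    ((coprime_i D.hi).mul_left hc) (by norm_num) (by norm_num) _ ?_
  intro h5 l κ hcl hl hk hres hbig
  have := cfg3 D h4 h5 l κ hl m4 hcl hk hres
    (pos_C hL hs0 (by norm_num) (by norm_num) (by norm_num)) hbig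
  rw [show (1 : ℤ) * 1 ^ 2 * h2 = h2 by ring, show (1 : ℤ) * 1 ^ 2 * h3 = h3 by ring] at this
  exact this

lemma z4a {h2 h3 h4 : ℤ} (H : Triple h2 h3) (m4 : h4 % 4 = 3) :
    ZeroDensity {h5 : ℤ | (h4 - h5) % 8 = 0 ∧ ¬ Inf5 0 h2 h3 h4 h5} := by
  obtain ⟨n2, n3, n23, m2, m3, nc⟩ := H
  obtain ⟨k2, rfl⟩ : ∃ k2, h2 = 2 * k2 := ⟨h2 / 2, by omega⟩
  obtain ⟨k3, rfl⟩ : ∃ k3, h3 = 2 * k3 := ⟨h3 / 2, by omega⟩
  obtain ⟨s, w1, w2, w3, c, τ, i, D, hc, hL, -⟩ := hasLine k2 k3 (by omega) (by omega) (by omega)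
    (by omega) (by omega) (by omega) 1 1 (Or.inl rfl) (2 * |h4| + 13) 0 (Or.inl rfl)
  have hs0 := D.good.1
  refine z_of _ _ h4 s (i * (1 * τ - 1)) (-2) (2 * h4) (1 ^ 2 * c + 1 * s * h4) hs0
    ((coprime_i D.hi).mul_left hc) (by norm_num) (by norm_num) _ ?_
  intro h5 l κ hcl hl hk hres hbig
  have := cfg4a D h4 h5 l κ hl m4 hcl hk hres
    (pos_C hL hs0 (by norm_num) (by norm_num) (by norm_num)) hbig
  rw [show (2 : ℤ) * 1 ^ 2 * k2 = 2 * k2 by ring, show (2 : ℤ) * 1 ^ 2 * k3 = 2 * k3 by ring] at this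
  exact this

lemma z4b {h2 h3 h4 : ℤ} (H : Triple h2 h3) (m4 : h4 % 4 = 3) :
    ZeroDensity {h5 : ℤ | (h4 - h5) % 8 = 4 ∧ ¬ Inf5 0 h2 h3 h4 h5} := by
  obtain ⟨n2, n3, n23, m2, m3, nc⟩ := H
  obtain ⟨k2, rfl⟩ : ∃ k2, h2 = 2 * k2 := ⟨h2 / 2, by omega⟩
  obtain ⟨k3, rfl⟩ : ∃ k3, h3 = 2 * k3 := ⟨h3 / 2, by omega⟩
  have key : ∀ t : ℤ, t = 0 ∨ t = 1 → ZeroDensity {h5 : ℤ |
      ((h4 - h5) % 8 = 4 ∧ ((1 + 4 * t = 1 ∧ (h4 - h5) % 16 = (if h4 % 8 = 3 then 4 else 12)) ∨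
      (1 + 4 * t = 5 ∧ (h4 - h5) % 16 = (if h4 % 8 = 3 then 12 else 4)))) ∧
      ¬ Inf5 0 (2 * k2) (2 * k3) h4 h5} := by
    intro t ht
    obtain ⟨s, w1, w2, w3, c, τ, i, D, hc, hL, hs8⟩ := hasLine k2 k3 (by omega) (by omega)
      (by omega) (by omega) (by omega) (by omega) 1 2 (Or.inr rfl) (2 * |h4| + 13) t ht
    have hs0 := D.good.1
    have hs8' := hs8 (by omega) (by omega)
    refine z_of _ _ h4 s (i * (1 * τ - 2)) (-2) (2 * h4) (1 ^ 2 * c + 1 * s * h4) hs0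
      ((coprime_i D.hi).mul_left hc) (by norm_num) (by norm_num) _ ?_
    intro h5 l κ hcl hl hk hres hbig
    have := cfg4b D h4 h5 l κ hl m4 hcl.1 (by rw [hs8']; exact hcl.2) hk hres
      (pos_C hL hs0 (by norm_num) (by norm_num) (by norm_num)) hbig
    rw [show (2 : ℤ) * 1 ^ 2 * k2 = 2 * k2 by ring, show (2 : ℤ) * 1 ^ 2 * k3 = 2 * k3 by ring]
      at this
    exact this
  refine ((key 0 (Or.inl rfl)).union (key 1 (Or.inr rfl))).mono ?_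
  rintro h5 ⟨hh, hn⟩
  by_cases h1 : (h4 - h5) % 16 = (if h4 % 8 = 3 then 4 else 12)
  · exact Or.inl ⟨⟨hh, Or.inl ⟨by norm_num, h1⟩⟩, hn⟩
  · refine Or.inr ⟨⟨hh, Or.inr ⟨by norm_num, ?_⟩⟩, hn⟩
    split_ifs at h1 ⊢ <;> omega

lemma z5 {h2 h3 h4 : ℤ} (H : Triple h2 h3) :
    ZeroDensity {h5 : ℤ | ((h4 % 4 = 3 ∧ h5 % 4 = 2) ∨ (h4 % 4 = 2 ∧ h5 % 4 = 3)) ∧
      ¬ Inf5 0 h2 h3 h4 h5} := by
  obtain ⟨n2, n3, n23, m2, m3, nc⟩ := H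
  obtain ⟨k2, rfl⟩ : ∃ k2, h2 = 2 * k2 := ⟨h2 / 2, by omega⟩
  obtain ⟨k3, rfl⟩ : ∃ k3, h3 = 2 * k3 := ⟨h3 / 2, by omega⟩
  obtain ⟨s, w1, w2, w3, c, τ, i, D, hc, hL, -⟩ := hasLine k2 k3 (by omega) (by omega) (by omega)
    (by omega) (by omega) (by omega) 1 1 (Or.inl rfl) (2 * |h4| + 13) 0 (Or.inl rfl)
  have hs0 := D.good.1
  have hc2 : IsCoprime (2 : ℤ) s := by
    have := (isCoprime_two_pow (s := s) (by have := D.good.2.1; omega) 1).symm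
    rwa [pow_one] at this
  refine z_of _ _ h4 s (2 * (i * (1 * τ - 1))) (-2) (2 * h4) (1 ^ 2 * c + 1 * s * h4) hs0
    (hc2.mul_left ((coprime_i D.hi).mul_left hc)) (by norm_num) (by norm_num) _ ?_
  intro h5 l κ hcl hl hk hres hbig
  have := cfg5 D h4 h5 l κ hl hcl hk hres
    (pos_C hL hs0 (by norm_num) (by norm_num) (by norm_num)) hbig
  rw [show (2 : ℤ) * 1 ^ 2 * k2 = 2 * k2 by ring, show (2 : ℤ) * 1 ^ 2 * k3 = 2 * k3 by ring] at this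
  exact this

lemma z6 {h2 h3 h4 : ℤ} (H : Triple h2 h3) (m4 : h4 % 4 = 1) :
    ZeroDensity {h5 : ℤ | h5 % 4 = 1 ∧ ¬ Inf5 0 h2 h3 h4 h5} := by
  obtain ⟨n2, n3, n23, m2, m3, nc⟩ := H
  obtain ⟨k2, rfl⟩ : ∃ k2, h2 = 4 * k2 := ⟨h2 / 4, by omega⟩
  obtain ⟨k3, rfl⟩ : ∃ k3, h3 = 4 * k3 := ⟨h3 / 4, by omega⟩
  obtain ⟨s, w1, w2, w3, c, τ, i, D, hc, hL, -⟩ := hasLine k2 k3 (by omega) (by omega) (by omega)
    (by omega) (by omega) (by omega) 2 1 (Or.inl rfl) (2 * |h4| + 13) 0 (Or.inl rfl)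
  have hs0 := D.good.1
  refine z_of _ _ h4 s (i * (2 * τ - 1)) (-2) (2 * h4) (2 ^ 2 * c + 2 * s * h4) hs0
    ((coprime_i D.hi).mul_left hc) (by norm_num) (by norm_num) _ ?_
  intro h5 l κ hcl hl hk hres hbig
  have := cfg6 D h4 h5 l κ hl m4 hcl hk hres
    (pos_C hL hs0 (by norm_num) (by norm_num) (by norm_num)) hbig
  rw [show (1 : ℤ) * 2 ^ 2 * k2 = 4 * k2 by ring, show (1 : ℤ) * 2 ^ 2 * k3 = 4 * k3 by ring] at this
  exact this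

lemma z8 {h2 h3 h4 : ℤ} (H : Triple h2 h3) :
    ZeroDensity {h5 : ℤ | ((h4 % 4 = 1 ∧ h5 % 8 = 2) ∨ (h4 % 8 = 2 ∧ h5 % 4 = 1)) ∧
      ¬ Inf5 0 h2 h3 h4 h5} := by
  obtain ⟨n2, n3, n23, m2, m3, nc⟩ := H
  obtain ⟨k2, rfl⟩ : ∃ k2, h2 = 8 * k2 := ⟨h2 / 8, by omega⟩
  obtain ⟨k3, rfl⟩ : ∃ k3, h3 = 8 * k3 := ⟨h3 / 8, by omega⟩
  obtain ⟨s, w1, w2, w3, c, τ, i, D, hc, hL, -⟩ := hasLine k2 k3 (by omega) (by omega) (by omega)
    (by omega) (by omega) (by omega) 2 1 (Or.inl rfl) (2 * |h4| + 13) 0 (Or.inl rfl)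
  have hs0 := D.good.1
  have hc2 : IsCoprime (2 : ℤ) s := by
    have := (isCoprime_two_pow (s := s) (by have := D.good.2.1; omega) 1).symm
    rwa [pow_one] at this
  refine z_of _ _ h4 s (2 * (i * (2 * τ - 1))) (-2) (2 * h4) (2 ^ 2 * c + 1 * s * h4) hs0
    (hc2.mul_left ((coprime_i D.hi).mul_left hc)) (by norm_num) (by norm_num) _ ?_
  intro h5 l κ hcl hl hk hres hbig
  have := cfg8 D h4 h5 l κ hl hcl hk hres
    (pos_C hL hs0 (by norm_num) (by norm_num) (by norm_num)) hbig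
  rw [show (2 : ℤ) * 2 ^ 2 * k2 = 8 * k2 by ring, show (2 : ℤ) * 2 ^ 2 * k3 = 8 * k3 by ring] at this
  exact this

lemma zU41a {h2 h3 h4 : ℤ} (H : Triple h2 h3) (m4 : h4 % 4 = 0) :
    ZeroDensity {h5 : ℤ | h5 % 2 = 1 ∧ ¬ Inf5 0 h2 h3 h4 h5} := by
  obtain ⟨n2, n3, n23, m2, m3, nc⟩ := H
  obtain ⟨s, w1, w2, w3, c, τ, i, D, hc, hL, -⟩ := hasLine h2 h3 n2 n3 n23 (by omega)
    (by omega) nc 1 2 (Or.inr rfl) (2 * |h4| + 13) 0 (Or.inl rfl)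
  rw [one_mul] at hc
  have hs0 := D.good.1
  refine z_of h2 h3 h4 s (3 * (i * (τ - 2))) (-(8 * s)) (2 * s * h4 - 3 * c - 12)
    (1 ^ 2 * c + 2 * s * h4) hs0
    ((coprime_three D.good).mul_left ((coprime_i D.hi).mul_left hc)) (by omega)
    ⟨-(4 * s), by ring⟩ _ ?_
  intro h5 l κ hcl hl hk hres hbig
  have := cfgU41a D h4 h5 l κ hl m4 hcl hk hres hc
    (pos_C hL hs0 (by norm_num) (by norm_num) (by norm_num)) hbig
  rw [show (1 : ℤ) * 1 ^ 2 * h2 = h2 by ring, show (1 : ℤ) * 1 ^ 2 * h3 = h3 by ring] at this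
  exact this

lemma zU14a {h2 h3 h4 : ℤ} (H : Triple h2 h3) (m4 : h4 % 2 = 1) :
    ZeroDensity {h5 : ℤ | h5 % 4 = 0 ∧ ¬ Inf5 0 h2 h3 h4 h5} := by
  obtain ⟨n2, n3, n23, m2, m3, nc⟩ := H
  obtain ⟨s, w1, w2, w3, c, τ, i, D, hc, hL, -⟩ := hasLine h2 h3 n2 n3 n23 (by omega)
    (by omega) nc 1 2 (Or.inr rfl) (2 * |h4| + 13) 0 (Or.inl rfl)
  rw [one_mul] at hc
  have hs0 := D.good.1
  refine z_of h2 h3 h4 s (3 * (i * (τ - 2))) (2 * s) (-(8 * s) * h4 - 3 * c - 12)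
    (1 ^ 2 * c + 2 * s * h4) hs0
    ((coprime_three D.good).mul_left ((coprime_i D.hi).mul_left hc)) (by omega)
    ⟨s, by ring⟩ _ ?_
  intro h5 l κ hcl hl hk hres hbig
  have := cfgU14a D h4 h5 l κ hl m4 hcl hk hres hc
    (pos_C hL hs0 (by norm_num) (by norm_num) (by norm_num)) hbig
  rw [show (1 : ℤ) * 1 ^ 2 * h2 = h2 by ring, show (1 : ℤ) * 1 ^ 2 * h3 = h3 by ring] at this
  exact this

lemma zU14b {h2 h3 h4 : ℤ} (H : Triple h2 h3) (m4 : h4 % 4 = 1) :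
    ZeroDensity {h5 : ℤ | h5 % 8 = 6 ∧ ¬ Inf5 0 h2 h3 h4 h5} := by
  obtain ⟨n2, n3, n23, m2, m3, nc⟩ := H
  obtain ⟨k2, rfl⟩ : ∃ k2, h2 = 4 * k2 := ⟨h2 / 4, by omega⟩
  obtain ⟨k3, rfl⟩ : ∃ k3, h3 = 4 * k3 := ⟨h3 / 4, by omega⟩
  obtain ⟨s, w1, w2, w3, c, τ, i, D, hc, hL, -⟩ := hasLine k2 k3 (by omega) (by omega) (by omega)
    (by omega) (by omega) (by omega) 1 1 (Or.inl rfl) (2 * |h4| + 13) 0 (Or.inl rfl)
  rw [one_mul] at hc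
  have hs0 := D.good.1
  refine z_of _ _ h4 s (3 * (i * (τ - 1))) (2 * s) (-(8 * s) * h4 - 12 * c - 12)
    (2 ^ 2 * c + 2 * s * h4) hs0
    ((coprime_three D.good).mul_left ((coprime_i D.hi).mul_left hc)) (by omega)
    ⟨s, by ring⟩ _ ?_
  intro h5 l κ hcl hl hk hres hbig
  have := cfgU14b D h4 h5 l κ hl m4 hcl hk hres hc
    (pos_C hL hs0 (by norm_num) (by norm_num) (by norm_num)) hbig
  rw [show (1 : ℤ) * 2 ^ 2 * k2 = 4 * k2 by ring, show (1 : ℤ) * 2 ^ 2 * k3 = 4 * k3 by ring] at this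
  exact this

lemma zU41b {h2 h3 h4 : ℤ} (H : Triple h2 h3) (m4 : h4 % 8 = 6) :
    ZeroDensity {h5 : ℤ | h5 % 4 = 1 ∧ ¬ Inf5 0 h2 h3 h4 h5} := by
  obtain ⟨n2, n3, n23, m2, m3, nc⟩ := H
  obtain ⟨k2, rfl⟩ : ∃ k2, h2 = 4 * k2 := ⟨h2 / 4, by omega⟩
  obtain ⟨k3, rfl⟩ : ∃ k3, h3 = 4 * k3 := ⟨h3 / 4, by omega⟩
  obtain ⟨s, w1, w2, w3, c, τ, i, D, hc, hL, -⟩ := hasLine k2 k3 (by omega) (by omega) (by omega)
    (by omega) (by omega) (by omega) 1 1 (Or.inl rfl) (2 * |h4| + 13) 0 (Or.inl rfl)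
  rw [one_mul] at hc
  have hs0 := D.good.1
  refine z_of _ _ h4 s (3 * (i * (τ - 1))) (-(8 * s)) (2 * s * h4 - 12 * c - 12)
    (2 ^ 2 * c + 2 * s * h4) hs0
    ((coprime_three D.good).mul_left ((coprime_i D.hi).mul_left hc)) (by omega)
    ⟨-(4 * s), by ring⟩ _ ?_
  intro h5 l κ hcl hl hk hres hbig
  have := cfgU41b D h4 h5 l κ hl m4 hcl hk hres hc
    (pos_C hL hs0 (by norm_num) (by norm_num) (by norm_num)) hbig
  rw [show (1 : ℤ) * 2 ^ 2 * k2 = 4 * k2 by ring, show (1 : ℤ) * 2 ^ 2 * k3 = 4 * k3 by ring] at this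
  exact this

/-- `h4` odd: all fifth shifts -/
lemma zero_h4odd {h2 h3 h4 : ℤ} (H : Triple h2 h3) (m4 : h4 % 2 = 1) :
    ZeroDensity {h5 : ℤ | ¬ Inf5 0 h2 h3 h4 h5} := by
  rcases (show h4 % 4 = 3 ∨ h4 % 4 = 1 by omega) with m | m
  · refine (((((z4a H m).union (z4b H m)).union (z3 H m4)).union (z5 (h4 := h4) H)).union
      (zU14a H m4)).mono ?_
    intro h5 hn
    rcases (show (h4 - h5) % 8 = 0 ∨ (h4 - h5) % 8 = 4 ∨ (h4 - h5) % 4 = 2 ∨ h5 % 4 = 2 ∨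
      h5 % 4 = 0 by omega) with h | h | h | h | h
    · exact Or.inl (Or.inl (Or.inl (Or.inl ⟨h, hn⟩)))
    · exact Or.inl (Or.inl (Or.inl (Or.inr ⟨h, hn⟩)))
    · exact Or.inl (Or.inl (Or.inr ⟨h, hn⟩))
    · exact Or.inl (Or.inr ⟨Or.inl ⟨m, h⟩, hn⟩)
    · exact Or.inr ⟨h, hn⟩
  · refine (((((z6 H m).union (zU14b H m)).union (z3 H m4)).union (z8 (h4 := h4) H)).union
      (zU14a H m4)).mono ?_
    intro h5 hn
    rcases (show h5 % 4 = 1 ∨ h5 % 8 = 6 ∨ (h4 - h5) % 4 = 2 ∨ h5 % 8 = 2 ∨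
      h5 % 4 = 0 by omega) with h | h | h | h | h
    · exact Or.inl (Or.inl (Or.inl (Or.inl ⟨h, hn⟩)))
    · exact Or.inl (Or.inl (Or.inl (Or.inr ⟨h, hn⟩)))
    · exact Or.inl (Or.inl (Or.inr ⟨h, hn⟩))
    · exact Or.inl (Or.inr ⟨Or.inl ⟨m, h⟩, hn⟩)
    · exact Or.inr ⟨h, hn⟩

/-- `h4` even: the odd fifth shifts -/
lemma zero_h4even {h2 h3 h4 : ℤ} (H : Triple h2 h3) (m4 : h4 % 2 = 0) :
    ZeroDensity {h5 : ℤ | h5 % 2 = 1 ∧ ¬ Inf5 0 h2 h3 h4 h5} := by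
  rcases (show h4 % 4 = 0 ∨ h4 % 8 = 2 ∨ h4 % 8 = 6 by omega) with m | m | m
  · exact zU41a H m
  · refine ((z5 (h4 := h4) H).union (z8 (h4 := h4) H)).mono ?_
    rintro h5 ⟨h5o, hn⟩
    rcases (show h5 % 4 = 3 ∨ h5 % 4 = 1 by omega) with h | h
    · exact Or.inl ⟨Or.inr ⟨by omega, h⟩, hn⟩
    · exact Or.inr ⟨Or.inr ⟨m, h⟩, hn⟩
  · refine ((z5 (h4 := h4) H).union (zU41b H m)).mono ?_
    rintro h5 ⟨h5o, hn⟩
    rcases (show h5 % 4 = 3 ∨ h5 % 4 = 1 by omega) with h | h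
    · exact Or.inl ⟨Or.inr ⟨by omega, h⟩, hn⟩
    · exact Or.inr ⟨h, hn⟩

/-- halving of a set -/
lemma ZeroDensity.double {E : Set ℤ} (hE : ZeroDensity E) :
    ZeroDensity {h : ℤ | h % 2 = 0 ∧ h / 2 ∈ E} := by
  unfold ZeroDensity at *
  refine squeeze_zero (fun X => by positivity) (fun X => ?_) hE
  apply div_le_div_of_nonneg_right _ (Nat.cast_nonneg X)
  have h1 : {h : ℤ | |h| ≤ (X : ℤ) ∧ h ∈ {h : ℤ | h % 2 = 0 ∧ h / 2 ∈ E}}.ncard ≤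
      {h : ℤ | |h| ≤ (X : ℤ) ∧ h ∈ E}.ncard := by
    refine Set.ncard_le_ncard_of_injOn (fun h => h / 2) ?_ ?_
      ((finite_abs_le X).subset fun x hx => hx.1)
    · rintro h ⟨ha, hb, hc⟩
      refine ⟨?_, hc⟩
      have := abs_le.mp ha
      apply abs_le.mpr
      constructor <;> omega
    · rintro x ⟨-, hx, -⟩ y ⟨-, hy, -⟩ hxy
      have hxy' : x / 2 = y / 2 := hxy
      omega
  exact_mod_cast h1

/-- doubling of the shifts -/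
lemma inf5_double {k2 k3 k4 k5 : ℤ} (h : Inf5 0 k2 k3 k4 k5) :
    Inf5 0 (2 * k2) (2 * k3) (2 * k4) (2 * k5) := by
  have hinj : Function.Injective (fun n : ℤ => 2 * n) := by
    intro x y hxy
    have : 2 * x = 2 * y := hxy
    linarith
  refine (h.image hinj.injOn).mono ?_
  rintro _ ⟨n, ⟨s1, s2, s3, s4, s5⟩, rfl⟩
  refine ⟨?_, ?_, ?_, ?_, ?_⟩
  · have := s1.two_mul; rw [mul_add] at this; simpa using this
  · have := s2.two_mul; rw [mul_add] at this; exact this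
  · have := s3.two_mul; rw [mul_add] at this; exact this
  · have := s4.two_mul; rw [mul_add] at this; exact this
  · have := s5.two_mul; rw [mul_add] at this; exact this

theorem almost_all_zero (h2 h3 h4 : ℤ) (n2 : h2 ≠ 0) (n3 : h3 ≠ 0) (n23 : h2 ≠ h3)
    (m2 : h2 % 128 = 0) (m3 : h3 % 128 = 0)
    (nc : h2 % 3 = 0 ∨ h3 % 3 = 0 ∨ (h2 - h3) % 3 = 0) :
    ZeroDensity {h5 : ℤ | ¬ Inf5 0 h2 h3 h4 h5} := by
  have H : Triple h2 h3 := ⟨n2, n3, n23, by omega, by omega, nc⟩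
  rcases (show h4 % 2 = 1 ∨ h4 % 2 = 0 by omega) with m4 | m4
  · exact zero_h4odd H m4
  obtain ⟨k2, rfl⟩ : ∃ k2, h2 = 2 * k2 := ⟨h2 / 2, by omega⟩
  obtain ⟨k3, rfl⟩ : ∃ k3, h3 = 2 * k3 := ⟨h3 / 2, by omega⟩
  obtain ⟨k4, rfl⟩ : ∃ k4, h4 = 2 * k4 := ⟨h4 / 2, by omega⟩
  have H' : Triple k2 k3 := ⟨by omega, by omega, by omega, by omega, by omega, by omega⟩
  have hodd := zero_h4even (h4 := 2 * k4) H m4
  rcases (show k4 % 2 = 1 ∨ k4 % 2 = 0 by omega) with m | m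
  · refine (hodd.union (zero_h4odd H' m).double).mono ?_
    intro h5 hn
    rcases (show h5 % 2 = 1 ∨ h5 % 2 = 0 by omega) with h | h
    · exact Or.inl ⟨h, hn⟩
    · refine Or.inr ⟨h, fun hI => hn ?_⟩
      have := inf5_double hI
      rw [show 2 * (h5 / 2) = h5 by omega] at this
      exact this
  · refine ((hodd.union (z1 (h4 := 2 * k4) H (by omega))).union (zero_h4even H' m).double).mono ?_
    intro h5 hn
    rcases (show h5 % 2 = 1 ∨ h5 % 4 = 0 ∨ h5 % 4 = 2 by omega) with h | h | h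
    · exact Or.inl (Or.inl ⟨h, hn⟩)
    · exact Or.inl (Or.inr ⟨h, hn⟩)
    · refine Or.inr ⟨by omega, by omega, fun hI => hn ?_⟩
      have := inf5_double hI
      rw [show 2 * (h5 / 2) = h5 by omega] at this
      exact this

/-- translation of a set -/
lemma ZeroDensity.translate {E : Set ℤ} (hE : ZeroDensity E) (a : ℤ) :
    ZeroDensity {h : ℤ | h - a ∈ E} := by
  unfold ZeroDensity at *
  have h1 : Tendsto (fun X : ℕ => X + a.natAbs) atTop atTop := tendsto_add_atTop_nat _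
  have h2 := hE.comp h1
  have h3 : Tendsto (fun X : ℕ => 1 + (a.natAbs : ℝ) / (X : ℝ)) atTop (𝓝 (1 + 0)) :=
    tendsto_const_nhds.add (tendsto_const_div_atTop_nhds_zero_nat _)
  have h4 := h2.mul h3
  rw [zero_mul] at h4
  refine squeeze_zero' (Eventually.of_forall fun X => by positivity) ?_ h4
  filter_upwards [eventually_ge_atTop 1] with X hX
  have hX0 : (0 : ℝ) < X := by exact_mod_cast hX
  have h5 : {h : ℤ | |h| ≤ (X : ℤ) ∧ h ∈ {h : ℤ | h - a ∈ E}}.ncard ≤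
      {h : ℤ | |h| ≤ ((X + a.natAbs : ℕ) : ℤ) ∧ h ∈ E}.ncard := by
    refine Set.ncard_le_ncard_of_injOn (fun h => h - a) ?_ ?_
      ((finite_abs_le _).subset fun x hx => hx.1)
    · rintro h ⟨ha, hb⟩
      refine ⟨?_, hb⟩
      have h9 := abs_sub h a
      push_cast
      linarith
    · intro x _ y _ hxy
      have : x - a = y - a := hxy
      linarith
  have h6 : (({h : ℤ | |h| ≤ (X : ℤ) ∧ h ∈ {h : ℤ | h - a ∈ E}}.ncard : ℝ)) ≤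
      ({h : ℤ | |h| ≤ ((X + a.natAbs : ℕ) : ℤ) ∧ h ∈ E}.ncard : ℝ) := by exact_mod_cast h5
  have h7 : (1 : ℝ) + (a.natAbs : ℝ) / X = ((X + a.natAbs : ℕ) : ℝ) / X := by
    push_cast; field_simp
  show _ ≤ ({h : ℤ | |h| ≤ ((X + a.natAbs : ℕ) : ℤ) ∧ h ∈ E}.ncard : ℝ) /
    ((X + a.natAbs : ℕ) : ℝ) * (1 + (a.natAbs : ℝ) / X)
  rw [h7]
  have h8 : (0 : ℝ) < ((X + a.natAbs : ℕ) : ℝ) := by positivity
  rw [div_mul_div_cancel₀ h8.ne']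
  exact div_le_div_of_nonneg_right h6 hX0.le

/-- translation of the shifts -/
lemma inf5_translate {h1 h2 h3 h4 h5 : ℤ}
    (h : Inf5 0 (h2 - h1) (h3 - h1) (h4 - h1) (h5 - h1)) : Inf5 h1 h2 h3 h4 h5 := by
  have hinj : Function.Injective (fun n : ℤ => n - h1) := by
    intro x y hxy
    have : x - h1 = y - h1 := hxy
    linarith
  refine (h.image hinj.injOn).mono ?_
  rintro _ ⟨n, ⟨s1, s2, s3, s4, s5⟩, rfl⟩
  refine ⟨?_, ?_, ?_, ?_, ?_⟩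
  · show Sq2 (n - h1 + h1)
    rw [show n - h1 + h1 = n + 0 by ring]; exact s1
  · show Sq2 (n - h1 + h2)
    rw [show n - h1 + h2 = n + (h2 - h1) by ring]; exact s2
  · show Sq2 (n - h1 + h3)
    rw [show n - h1 + h3 = n + (h3 - h1) by ring]; exact s3
  · show Sq2 (n - h1 + h4)
    rw [show n - h1 + h4 = n + (h4 - h1) by ring]; exact s4
  · show Sq2 (n - h1 + h5)
    rw [show n - h1 + h5 = n + (h5 - h1) by ring]; exact s5

theorem almost_all (h1 h2 h3 h4 : ℤ) (h12 : h1 ≠ h2) (h13 : h1 ≠ h3) (h23 : h2 ≠ h3)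
    (m2 : (h2 - h1) % 128 = 0) (m3 : (h3 - h1) % 128 = 0)
    (nc : (h2 - h1) % 3 = 0 ∨ (h3 - h1) % 3 = 0 ∨ (h2 - h3) % 3 = 0) :
    ZeroDensity {h5 : ℤ | ¬ Inf5 h1 h2 h3 h4 h5} := by
  have h := (almost_all_zero (h2 - h1) (h3 - h1) (h4 - h1) (by omega) (by omega) (by omega) m2 m3
    (by omega)).translate h1
  refine h.mono ?_
  intro h5 hn hI
  exact hn (inf5_translate hI)

end Pool.Agent.Lib.MP_0ea763_nt_Five
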